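import Pool.Agent.Q73.LT.Defs

/-!
Flips of generalized pairs.
-/

set_option autoImplicit false

open FF

namespace Pool.Agent.Q73.FL

open Pool.Agent.Q73.LT

variable {K : Type} [Field K] [Algebra ℂ K]

/-- The birational map from `X y` to `X z` is a morphism: at every centre, the local ring of `X z`
is contained in the local ring of `X y`. -/
def Dom (y z : Sys K) : Prop := ∀ P : Place ℂ K, localRing z P ⊆ localRing y P

/-- The exceptional locus of the morphism from `X y` to `X z` (the set of the centres at which the
local rings of `X y` and of `X z` are different) is not empty, and it is irreducible: it is contained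
in the closure of one of its centres. -/
def IrrExc (y z : Sys K) : Prop := ∃ Q : Place ℂ K, localRing y Q ≠ localRing z Q ∧
  ∀ P : Place ℂ K, localRing y P ≠ localRing z P → Through y Q P

/-- `D` is an ample `ℝ`-divisor on `X y`: `D - ε H` is semiample for some `ε > 0`, for the hyperplane
class `H`. -/
def Ample (y : Sys K) (D : Place ℂ K → ℝ) : Prop :=
  ∃ ε : ℝ, 0 < ε ∧ Semiample y fun P => D P - ε * y.L P

/-- `D` is ample on `X y` over `X z`: `D + m H` is ample for some `m`, for the hyperplane class `H` of
`X z`. -/
def RelAmple (y z : Sys K) (D : Place ℂ K → ℝ) : Prop :=
  ∃ m : ℝ, Ample y fun P => D P + m * z.L P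

/-- `X y → X z` is a small birational contraction of one irreducible curve (if the dimension is
three): it is a morphism of normal projective varieties, `X y` and `X z` have the same prime divisors,
and the exceptional locus is not empty and irreducible. -/
structure SmallContraction (y z : Sys K) : Prop where
  model : Model y
  model' : Model z
  dom : Dom y z
  small : ∀ P, IsPrimeDivisor y P ↔ IsPrimeDivisor z P
  irr : IrrExc y z

/-- `X y → X z` is the contraction of an extremal ray (generated by the exceptional curve) on which `D`
is negative, and `X y' → X z` is its flip: the exceptional locus is again an irreducible curve, and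
`D'` is ample over `X z`. Here `D` and `D'` are the divisors of the generalized pair on `X y` and
`X y'`. -/
structure IsFlip (y z y' : Sys K) (D D' : Place ℂ K → ℝ) : Prop where
  contr : SmallContraction y z
  contr' : SmallContraction y' z
  neg : RelAmple y z fun P => - D P
  pos : RelAmple y' z D'

end Pool.Agent.Q73.FL
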