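import Pool.Agent.Q73.FL.Sh

/-!
The divisors of the generalized pairs of the sequence.
-/

set_option autoImplicit false

open FF Real Pool.Agent.W603.LV Pool.Agent.W602.GT Pool.Agent.Q73.FL

open scoped goldenRatio

namespace Pool.Agent.Q73.LT

namespace Exa

section

variable {κ K : Type} [Field κ] [Algebra ℂ κ] [Field K] [Algebra ℂ K] [Algebra κ K]

theorem Pri.rcartier {D : Place ℂ K → ℝ} (h : Pri (κ := κ) D) (y : Sys K) : RCartier y D := by
  obtain ⟨m, r, f, hf, hD⟩ := h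
  exact fun Q => ⟨m, r, fun i => algebraMap κ K (f i), fun i => map_ne (hf i), fun P _ => hD P⟩

/-- the scaling factors -/
noncomputable def sn (n : ℕ) : ℝ := φ ^ 2 / (φ ^ 2) ^ n

theorem sn_pos (n : ℕ) : 0 < sn n := by
  have := goldenRatio_pos
  unfold sn
  positivity

theorem sn_succ (n : ℕ) : sn n = φ ^ 2 * sn (n + 1) := by
  have := goldenRatio_pos
  unfold sn
  rw [pow_succ (φ ^ 2) n]
  field_simp

variable (E : Exa κ K)

/-- the principal parts -/
noncomputable def Rn (E : Exa κ K) : ℕ → Place ℂ K → ℝ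
  | 0 => fun P => φ * P.ord (algebraMap κ K (E.g 0))
  | n + 1 => fun P => E.Rn n P - sn (n + 1) * φ * P.ord (algebraMap κ K (E.g n))

theorem Rn_pri (n : ℕ) : Pri (κ := κ) (E.Rn n) := by
  induction n with
  | zero =>
    have h := (pri_zero (κ := κ) (K := K)).add_ord 1 φ (E.g_ne 0)
    have h1 : (fun P : Place ℂ K => (1 : ℝ) * 0 + φ * P.ord (algebraMap κ K (E.g 0))) = E.Rn 0 := by
      funext P
      unfold Rn
      ring
    rw [← h1]
    exact h
  | succ n ih =>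
    have h := ih.add_ord 1 (-(sn (n + 1) * φ)) (E.g_ne n)
    have h1 : (fun P : Place ℂ K => (1 : ℝ) * E.Rn n P +
        -(sn (n + 1) * φ) * P.ord (algebraMap κ K (E.g n))) = E.Rn (n + 1) := by
      funext P
      rw [Rn]
      ring
    rw [← h1]
    exact h

theorem N_Rn (n : ℕ) (P : Place ℂ K) : E.N P = sn n * E.Comb ψ 1 φ n P + E.Rn n P := by
  induction n with
  | zero =>
    rw [N_eq, E.comb_succ eig1 eig2 eig3 0]
    unfold sn Rn
    rw [pow_zero, div_one]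
  | succ n ih =>
    rw [ih, E.comb_succ eig1 eig2 eig3 n, Rn, sn_succ n]
    ring

/-- the divisors, before scaling -/
noncomputable def DD (n : ℕ) (P : Place ℂ K) : ℝ :=
  sn n * (ψ * (E.V n).L P + (E.V (n + 1)).L P + φ * (E.V (n + 2)).L P) + E.Rn n P

/-- the divisors of the generalized pairs -/
noncomputable def Dn (n : ℕ) (P : Place ℂ K) : ℝ := 1 / 50 * E.DD n P

/-- the nef part -/
noncomputable def bn (P : Place ℂ K) : ℝ :=
  1 / 50 * E.N P + (2 / 3 * E.l3 P + 1 / 3 * P.ord E.cz)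

theorem bn_nef (hy : Model E.Y) : Nef E.Y E.bn := by
  have h1 : Nef E.Y fun P => (1 / 50 : ℝ) * E.N P := by
    refine ⟨(E.N_rcartier hy).smul _, fun ε hε => ?_⟩
    refine ((E.N_semiample hy (ε := 50 * ε) (by positivity)).smul
      (by norm_num : (0 : ℝ) ≤ 1 / 50)).congr fun P => ?_
    ring
  have h3 : Nef E.Y fun P => (2 / 3 : ℝ) * E.l3 P := by
    have h2 := E.cof_T3.bpf hy
    refine Semiample.nef ((h2.semiample.smul (by norm_num : (0 : ℝ) ≤ 2 / 3)).congr
      fun P => by rw [L_T3]) ((h2.rcartier.smul (2 / 3)).congr fun P => by rw [L_T3])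
  have h4 : Nef E.Y fun P => (1 / 3 : ℝ) * P.ord E.cz :=
    Semiample.nef (semiample_ord E.Y E.cz_ne _) ((rcartier_ord E.Y E.cz_ne).smul _)
  exact h1.add (h3.add h4)

theorem L_zs (n : ℕ) (P : Place ℂ K) : (E.zs n).L P =
    (E.V (n + 1)).L P + ((E.V (n + 2)).L P + E.T3.L P) := by
  unfold zs
  rw [L_mul, L_mul]

theorem L_ys (n : ℕ) (P : Place ℂ K) : (E.ys n).L P =
    (E.V n).L P + ((E.V (n + 1)).L P + ((E.V (n + 2)).L P + E.T3.L P)) := by
  unfold ys
  rw [L_mul, L_zs]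

theorem cofV0 (n : ℕ) : Cof (E.ys n) (E.V n) := cof_left _ _

theorem cofV1 (n : ℕ) : Cof (E.ys n) (E.V (n + 1)) := Cof.trans_mul (cof_left _ _)

theorem cofV2 (n : ℕ) : Cof (E.ys n) (E.V (n + 2)) :=
  Cof.trans_mul (Cof.trans_mul (cof_left _ _))

theorem cofT3 (n : ℕ) : Cof (E.ys n) E.T3 := Cof.trans_mul (Cof.trans_mul (cof_right _ _))

theorem Dn_rcartier {n : ℕ} (hy : Model (E.ys n)) : RCartier (E.ys n) (E.Dn n) := by
  refine (((((E.cofV0 n).bpf hy).rcartier.smul (1 / 50 * sn n * ψ)).add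
    ((((E.cofV1 n).bpf hy).rcartier.smul (1 / 50 * sn n)).add
    (((E.cofV2 n).bpf hy).rcartier.smul (1 / 50 * sn n * φ)))).add
      (((E.Rn_pri n).rcartier (E.ys n)).smul (1 / 50))).congr fun P => ?_
  unfold Dn DD
  ring

theorem semi_comb {n : ℕ} (hy : Model (E.ys n)) {a b c d : ℝ} (ha : 0 ≤ a) (hb : 0 ≤ b)
    (hc : 0 ≤ c) (hd : 0 ≤ d) (r : ℝ) : Semiample (E.ys n) fun P =>
      a * (E.V n).L P + b * (E.V (n + 1)).L P + c * (E.V (n + 2)).L P + d * E.T3.L P +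
        r * E.Rn n P := by
  refine (((((((E.cofV0 n).bpf hy).semiample.smul ha).add
    (((E.cofV1 n).bpf hy).semiample.smul hb)).add
    (((E.cofV2 n).bpf hy).semiample.smul hc)).add
    (((E.cofT3 n).bpf hy).semiample.smul hd)).add
      (((E.Rn_pri n).smul r).semiample (E.ys n))).congr fun P => ?_
  rfl

/-- `-D` is ample over the base of the flip -/
theorem neg_ample {n : ℕ} (hy : Model (E.ys n)) :
    RelAmple (E.ys n) (E.zs n) fun P => - E.Dn n P := by
  have hs := sn_pos n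
  have h1 := goldenRatio_lt_two
  have h2 := goldenConj_neg
  have h3 := goldenRatio_pos
  have hsφ : 0 ≤ sn n * (2 - φ) := mul_nonneg hs.le (by linarith)
  refine ⟨1 / 50 * sn n * (2 - ψ), 1 / 50 * sn n * (-ψ), ?_, ?_⟩
  · have := mul_pos hs (neg_pos.2 h2)
    nlinarith
  · refine (E.semi_comb hy (a := 0) (b := 1 / 50 * sn n) (c := 1 / 50 * (sn n * (2 - φ)))
      (d := 1 / 50 * sn n * 2) le_rfl (by positivity) (by positivity) (by positivity)
      (-(1 / 50))).congr fun P => ?_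
    beta_reduce
    rw [L_zs, L_ys]
    unfold Dn DD
    push_cast
    ring

/-- the new divisor is ample over the base of the flip -/
theorem pos_ample {n : ℕ} (hy : Model (E.ys (n + 1))) :
    RelAmple (E.ys (n + 1)) (E.zs n) (E.Dn (n + 1)) := by
  have hs := sn_pos (n + 1)
  have h2 := neg_one_lt_goldenConj
  have h3 := goldenRatio_pos
  have hsψ : 0 ≤ sn (n + 1) * (1 + ψ) := mul_nonneg hs.le (by linarith)
  refine ⟨1 / 50 * sn (n + 1) * (φ + 1), 1 / 50 * sn (n + 1) * φ, by positivity, ?_⟩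
  refine (E.semi_comb hy (a := 1 / 50 * (sn (n + 1) * (1 + ψ))) (b := 1 / 50 * (sn (n + 1) * 2))
    (c := 0) (d := 1 / 50 * sn (n + 1)) (by positivity) (by positivity) le_rfl (by positivity)
    (1 / 50)).congr fun P => ?_
  have h4 := E.L_zs n P
  have h5 := E.L_ys (n + 1) P
  have h6 : n + 1 + 1 = n + 2 := rfl
  beta_reduce
  rw [h4, h5]
  unfold Dn DD
  rw [h6]
  push_cast
  ring

theorem it_H (n i : ℕ) (P : Place ℂ K) : (E.it n).H i P = E.H (n + i) P := by
  unfold H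
  rw [it_C]

theorem it_lam (n : ℕ) (P : Place ℂ K) : (E.it n).lam P = E.lam P := by
  unfold lam lz
  rw [it_z]

/-- the ultrametric laws -/
theorem ultn (n : ℕ) (P : Place ℂ K) :
    ((E.H (n + 1) P < E.H (n + 2) P → E.H n P = E.H (n + 1) P) ∧
      (E.H (n + 2) P < E.H (n + 1) P → E.H n P = E.H (n + 2) P) ∧
      (E.H (n + 1) P = E.H (n + 2) P → E.H (n + 1) P ≤ E.H n P)) ∧
    ((E.H (n + 1) P < E.H (n + 2) P → E.H (n + 3) P = E.H (n + 1) P) ∧
      (E.H (n + 2) P < E.H (n + 1) P → E.H (n + 3) P = E.H (n + 2) P) ∧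
      (E.H (n + 1) P = E.H (n + 2) P → E.H (n + 1) P ≤ E.H (n + 3) P)) := by
  have h0 := (E.it n).ult0 P
  have h3 := (E.it n).ult3 P
  rw [it_H, it_H, it_H] at h0 h3
  exact ⟨h0, h3⟩

/-- the divisors decrease -/
theorem DD_le (n : ℕ) (P : Place ℂ K) : E.DD (n + 1) P ≤ E.DD n P := by
  obtain ⟨⟨a1, a2, a3⟩, b1, b2, b3⟩ := E.ultn n P
  have hlaw := E.H_law n P
  have hl := E.lam_nonneg P
  have key : 0 ≤ -(E.V n).L P + 2 * (E.V (n + 1)).L P + 2 * (E.V (n + 2)).L P -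
      (E.V (n + 3)).L P + P.ord (algebraMap κ K (E.g n)) := by
    rw [L_V, L_V, L_V, L_V]
    rcases lt_trichotomy (E.H (n + 1) P) (E.H (n + 2) P) with h | h | h
    · have := a1 h
      have := b1 h
      omega
    · have := a3 h
      have := b3 h
      omega
    · have := a2 h
      have := b2 h
      omega
  have key' : (0 : ℝ) ≤ -(E.V n).L P + 2 * (E.V (n + 1)).L P + 2 * (E.V (n + 2)).L P -
      (E.V (n + 3)).L P + P.ord (algebraMap κ K (E.g n)) := by exact_mod_cast key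
  have hs := sn_pos (n + 1)
  have h3 := goldenRatio_pos
  have h4 := mul_nonneg (mul_pos hs h3).le key'
  have h5 : n + 1 + 1 = n + 2 := rfl
  have h6 : n + 1 + 2 = n + 3 := rfl
  have e1 := eig1
  have e2 := eig2
  have e3 := eig3
  unfold DD
  rw [Rn, sn_succ n, h5, h6]
  have h7 : φ ^ 2 * sn (n + 1) * (ψ * (E.V n).L P + (E.V (n + 1)).L P + φ * (E.V (n + 2)).L P) +
      E.Rn n P - (sn (n + 1) * (ψ * (E.V (n + 1)).L P + (E.V (n + 2)).L P +
        φ * (E.V (n + 3)).L P) + (E.Rn n P - sn (n + 1) * φ *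
          P.ord (algebraMap κ K (E.g n)))) =
      sn (n + 1) * φ * (-(E.V n).L P + 2 * (E.V (n + 1)).L P + 2 * (E.V (n + 2)).L P -
      (E.V (n + 3)).L P + P.ord (algebraMap κ K (E.g n))) := by
    linear_combination (-(sn (n + 1) * (E.V n).L P)) * e1 - (sn (n + 1) * (E.V (n + 1)).L P) * e2 -
      (sn (n + 1) * (E.V (n + 2)).L P) * e3
  linarith

theorem DD_le_zero (n : ℕ) (P : Place ℂ K) : E.DD n P ≤ E.DD 0 P := by
  induction n with
  | zero => exact le_rfl
  | succ n ih => exact (E.DD_le n P).trans ih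

/-- the bound for the klt property -/
theorem DD_zero_le (P : Place ℂ K) : E.DD 0 P ≤ E.N P + 2 * φ ^ 4 * E.S0 P := by
  rw [E.N_Rn 0 P]
  have hs := sn_pos 0
  have hs0 : sn 0 = φ ^ 2 := by
    unfold sn
    rw [pow_zero, div_one]
  have e0 : E.H 0 P ≤ (E.V 0).L P := by
    rw [L_V]
    exact le_max_left _ _
  have e1 : (E.V 1).L P ≤ E.H 1 P + 2 * E.S0 P := by
    rw [L_V, E.H_one]
    unfold lam S0
    omega
  have e2 : (E.V 2).L P ≤ E.H 2 P + 2 * E.S0 P := by
    rw [L_V, E.H_two]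
    unfold lam S0
    omega
  have e0' : (E.H 0 P : ℝ) ≤ (E.V 0).L P := by exact_mod_cast e0
  have e1' : ((E.V 1).L P : ℝ) ≤ E.H 1 P + 2 * E.S0 P := by exact_mod_cast e1
  have e2' : ((E.V 2).L P : ℝ) ≤ E.H 2 P + 2 * E.S0 P := by exact_mod_cast e2
  have hψ := goldenConj_neg
  have hφ := goldenRatio_pos
  have h1 : ψ * ((E.V 0).L P : ℝ) ≤ ψ * E.H 0 P := mul_le_mul_of_nonpos_left e0' hψ.le
  have h2 : φ * ((E.V 2).L P : ℝ) ≤ φ * (E.H 2 P + 2 * E.S0 P) :=
    mul_le_mul_of_nonneg_left e2' hφ.le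
  have h3 : ψ * ((E.V 0).L P : ℝ) + (E.V 1).L P + φ * (E.V 2).L P ≤
      ψ * E.H 0 P + (E.H 1 P + 2 * E.S0 P) + φ * (E.H 2 P + 2 * E.S0 P) := by linarith
  have h4 := mul_le_mul_of_nonneg_left h3 hs.le
  have h5 := goldenRatio_sq
  have h6 : φ ^ 4 = φ ^ 2 * (1 + φ) := by linear_combination φ ^ 2 * h5
  unfold DD Comb
  rw [h6]
  rw [hs0] at h4 ⊢
  simp only [Nat.zero_add]
  linarith

end

end Exa

end Pool.Agent.Q73.LT
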