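import Pool.Agent.Q73.FL.Pd
import Pool.Agent.Q73.LT.Fin

/-!
The generalized pairs of the sequence of flips.
-/

set_option autoImplicit false

open FF Real Pool.Agent.W602.GT Pool.Agent.Q73.FL

open scoped goldenRatio

namespace Pool.Agent.Q73.LT

namespace Dat

variable {κ M K : Type} [Field κ] [Algebra ℂ κ] [Field M] [Algebra ℂ M] [Field K]
    [Algebra ℂ K] [Algebra κ K] [Algebra M K] [IsScalarTower ℂ M K] [IsScalarTower ℂ κ K]
    [FiniteDimensional M K] [Algebra.EssFiniteType ℂ K] [Algebra.EssFiniteType ℂ κ]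
    (E : Dat κ M K)

variable (hn : Algebra.trdeg ℂ κ = 2) (g1 : Gen1 κ E.z) (hn3 : Algebra.trdeg ℂ K = (3 : ℕ))
  (hκ : Algebra.IsAlgebraic (IntermediateField.adjoin ℂ {E.y1, E.y2}) κ)
  (hf : IsTranscendenceBasis ℂ E.f) (hy : Model E.Y) (hg : E.Gen)

include hn g1 hn3 hκ hf hy hg

theorem fl_gpair (n : ℕ) : IsGPair 3 (E.ys n) E.form (E.Bd 0) E.bn (E.Dn n) := by
  have hsc := E.sc_left hn hn3 g1 hg n
  have hz := (E.sc_left hn hn3 g1 hg 0).model'
  have hpd : ∀ P, IsPrimeDivisor (E.ys n) P → IsPrimeDivisor E.Y P := fun P hP =>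
    Exa.pd_Y hy hz hn3 ((Exa.pd_zero hn hn3 g1 hg n P).1 hP)
  exact
    { model := hsc.model
      dim := hn3
      form := E.form_pluri
      form_ne := E.form_ne hf
      eff := by
        intro P hP
        have hdiv := hP.divisorial hsc.model hn3
        obtain ⟨c, hc, -⟩ := E.a3_ge hf hdiv
        rw [E.Bd_eq' 0 hc]
        have h1 := (E.pd_bound hn3 g1 hκ (hpd P hP) hdiv hc).1
        linarith
      fin := by
        have h1 := finite_ord hy (Exa.map_ne (K := K) (E.C_ne 1))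
        have h2 := finite_ord hy (Exa.map_ne (K := K) (E.C_ne 2))
        have h3 := finite_ord hy E.z_ne
        refine ((h1.union h2).union h3).subset ?_
        rintro P ⟨hP', hB⟩
        by_contra hcon
        apply hB
        have hP := hpd P hP'
        have hdiv := hP.divisorial hy hn3
        obtain ⟨c, hc, -, -, h4⟩ := E.a3_ge hf hdiv
        have h5 := (E.pd_bound hn3 g1 hκ hP hdiv hc).1
        have h6 : P.ord (algebraMap κ K (E.C 1)) = 0 ∧ P.ord (algebraMap κ K (E.C 2)) = 0 ∧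
            P.ord E.z = 0 := by
          refine ⟨?_, ?_, ?_⟩
          · by_contra h
            exact hcon (Or.inl (Or.inl ⟨hP, h⟩))
          · by_contra h
            exact hcon (Or.inl (Or.inr ⟨hP, h⟩))
          · by_contra h
            exact hcon (Or.inr ⟨hP, h⟩)
        obtain ⟨h7, h8⟩ := h4 h6
        rw [E.Bd_eq' 0 hc, h8, Int.cast_zero, mul_zero, le_antisymm h5 h7]
        norm_num
      nef := ⟨E.Y, hy, E.bn_nef hy⟩
      car := E.Dn_rcartier hsc.model
      eq := by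
        intro P hP
        have hdiv := hP.divisorial hsc.model hn3
        obtain ⟨c, hc, -⟩ := E.a3_ge hf hdiv
        refine ⟨c, hc, ?_⟩
        rw [Exa.Dn_pd hn hn3 g1 hg n hP, E.Bd_eq' 0 hc]
        unfold Exa.bn Exa.a3
        ring }

omit hn g1 hn3 hκ hy hg in
theorem fl_gklt (n : ℕ) : Gklt 3 E.form E.bn (E.Dn n) := by
  intro P hP
  obtain ⟨c, hc, h1, h2, -⟩ := E.a3_ge hf hP
  refine ⟨c, hc, ?_⟩
  have h3 := E.DD_le_zero n P
  have h4 := E.DD_zero_le P
  have h5 : logDisc c E.bn (E.Dn n) P = 1 / 3 * E.a3 c P + 1 / 50 * (E.N P - E.DD n P) := by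
    unfold logDisc Exa.bn Exa.Dn Exa.a3
    ring
  rw [h5]
  have h6 : φ ^ 4 ≤ 7 := by
    have h7 := goldenRatio_sq
    have h8 : φ ^ 4 = 3 * φ + 2 := by linear_combination (φ ^ 2 + φ + 2) * h7
    have h9 : φ < 1.62 := by
      have h10 : φ = (1 + √5) / 2 := rfl
      have h11 : √5 < 2.24 := by
        rw [Real.sqrt_lt' (by norm_num)]
        norm_num
      rw [h10]
      linarith
    rw [h8]
    linarith
  have h7 : (0 : ℝ) ≤ E.S0 P := by exact_mod_cast E.S0_nonneg P
  have h8 : 2 * φ ^ 4 * (E.S0 P : ℝ) ≤ 14 * E.S0 P := by nlinarith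
  linarith

/-- the infinite sequence of flips -/
theorem fl_seq : (∀ n, IsGPair 3 (E.ys n) E.form (E.Bd 0) E.bn (E.Dn n)) ∧
    (∀ n, Gklt 3 E.form E.bn (E.Dn n)) ∧
    ∀ n, IsFlip (E.ys n) (E.zs n) (E.ys (n + 1)) (E.Dn n) (E.Dn (n + 1)) :=
  ⟨E.fl_gpair hn g1 hn3 hκ hf hy hg, E.fl_gklt hf, fun n =>
    { contr := E.sc_left hn hn3 g1 hg n
      contr' := E.sc_right hn hn3 g1 hg n
      neg := E.neg_ample (E.sc_left hn hn3 g1 hg n).model
      pos := E.pos_ample (E.sc_left hn hn3 g1 hg (n + 1)).model }⟩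

end Dat

end Pool.Agent.Q73.LT
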