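import Pool.Agent.Q73.FL.Uniq

/-!
Places of `κ(z)` with large residue field are Gauss extensions.
-/

set_option autoImplicit false

open FF Pool.Agent.W603.LV Polynomial

namespace Pool.Agent.Q73.LT

section

variable {κ K : Type} [Field κ] [Algebra ℂ κ] [Field K] [Algebra ℂ K] [Algebra κ K]
  [IsScalarTower ℂ κ K]

theorem red_sum {P : Place ℂ K} {ι : Type} (s : Finset ι) (f : ι → K) (h : ∀ i ∈ s, P.Reg (f i)) :
    P.Reg (∑ i ∈ s, f i) ∧ P.red (∑ i ∈ s, f i) = ∑ i ∈ s, P.red (f i) := by
  classical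
  induction s using Finset.induction_on with
  | empty =>
    rw [Finset.sum_empty, Finset.sum_empty]
    exact ⟨P.reg_zero, P.red_zero⟩
  | insert a s ha ih =>
    have h1 := ih fun i hi => h i (Finset.mem_insert_of_mem hi)
    have h2 := h a (Finset.mem_insert_self a s)
    rw [Finset.sum_insert ha, Finset.sum_insert ha]
    exact ⟨P.reg_add h2 h1.1, by rw [P.red_add h2 h1.1, h1.2]⟩

theorem reg_pow' {P : Place ℂ K} {f : K} (h : P.Reg f) (n : ℕ) : P.Reg (f ^ n) := by
  induction n with
  | zero => rw [pow_zero]; exact P.reg_one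
  | succ n ih => rw [pow_succ]; exact P.reg_mul ih h

/-- a polynomial in an element with transcendental residue -/
theorem ord_aeval_of_transc {P : Place ℂ K} {F1 : IntermediateField ℂ P.RF}
    (hF : ∀ c : κ, P.Reg (algebraMap κ K c) → P.red (algebraMap κ K c) ∈ F1) {s : K}
    (hs : P.Reg s) (hsF : P.red s ∉ acl F1) {q : κ[X]}
    (hq : ∀ i, P.Reg (algebraMap κ K (q.coeff i))) {i0 : ℕ} (hi0 : q.coeff i0 = 1) :
    aeval s q ≠ 0 ∧ P.ord (aeval s q) = 0 := by
  classical
  let p : F1[X] := ∑ i ∈ q.support, monomial i ⟨P.red (algebraMap κ K (q.coeff i)), hF _ (hq i)⟩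
  have hp : p ≠ 0 := by
    intro h0
    have h1 : p.coeff i0 = 1 := by
      have h2 : i0 ∈ q.support := by
        rw [mem_support_iff, hi0]
        exact one_ne_zero
      simp only [p, finsetSum_coeff, coeff_monomial]
      rw [Finset.sum_ite_eq' q.support i0, if_pos h2]
      apply Subtype.ext
      change P.red (algebraMap κ K (q.coeff i0)) = 1
      rw [hi0, map_one, P.red_one]
    rw [h0, coeff_zero] at h1
    exact zero_ne_one h1
  have h1 := red_sum (P := P) q.support (fun i => algebraMap κ K (q.coeff i) * s ^ i)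
    (fun i _ => P.reg_mul (hq i) (reg_pow' hs i))
  have h2 : aeval s q = ∑ i ∈ q.support, algebraMap κ K (q.coeff i) * s ^ i := by
    rw [aeval_def, eval₂_eq_sum, Polynomial.sum]
  have h3 : P.red (aeval s q) = aeval (P.red s) p := by
    rw [h2, h1.2]
    simp only [p, map_sum, aeval_monomial]
    refine Finset.sum_congr rfl fun i _ => ?_
    rw [P.red_mul (hq i) (reg_pow' hs i), P.red_pow hs]
    rfl
  have h4 : P.red (aeval s q) ≠ 0 := by
    rw [h3]
    intro h0
    exact hsF (mem_acl.2 ⟨p, hp, h0⟩)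
  have h5 : P.Reg (aeval s q) := by
    rw [h2]
    exact h1.1
  have h6 : ¬ (aeval s q = 0 ∨ 0 < P.ord (aeval s q)) := fun h =>
    h4 ((P.red_eq_zero_iff h5).2 h)
  push Not at h6
  exact ⟨h6.1, le_antisymm h6.2 ((P.reg_iff h6.1).1 h5)⟩

/-- **A place of `κ(z)` with large residue field is a Gauss extension.** -/
theorem eq_gp {z : K} (g1 : Gen1 κ z) {P : Place ℂ K} {w : Place ℂ κ} {e : ℕ} (ov : Over P w e)
    {b : κ} (hb : b ≠ 0) {a : ℕ} (hba : w.ord b = -(a : ℤ))
    (hbz : P.ord (algebraMap κ K b * z) = 0) {F1 : IntermediateField ℂ P.RF}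
    (hF : ∀ c : κ, P.Reg (algebraMap κ K c) → P.red (algebraMap κ K c) ∈ F1)
    (hs : P.red (algebraMap κ K b * z) ∉ acl F1) : P = gp g1 w a := by
  have hb' : algebraMap κ K b ≠ 0 := by rwa [Ne, map_eq_zero]
  have he : (0 : ℤ) < e := by exact_mod_cast ov.1
  have hpol : ∀ p : κ[X], p ≠ 0 → P.ord (aeval z p) = e * mu w a p := by
    intro p hp
    obtain ⟨i0, hi0, hmu⟩ := exists_mu w a hp
    set d : κ := p.coeff i0 * (b⁻¹) ^ i0 with hd
    have hd0 : d ≠ 0 := mul_ne_zero hi0 (pow_ne_zero _ (inv_ne_zero hb))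
    have hwd : w.ord d = mu w a p := by
      rw [hd, w.ord_mul hi0 (pow_ne_zero _ (inv_ne_zero hb)), w.ord_pow, w.ord_inv, hba, hmu]
      ring
    let q : κ[X] := C d⁻¹ * p.comp (C b⁻¹ * X)
    have hqc : ∀ i, q.coeff i = d⁻¹ * (p.coeff i * (b⁻¹) ^ i) := by
      intro i
      simp only [q]
      rw [coeff_C_mul, comp_C_mul_X_coeff]
    have hqi0 : q.coeff i0 = 1 := by
      rw [hqc, ← hd, inv_mul_cancel₀ hd0]
    have hqr : ∀ i, P.Reg (algebraMap κ K (q.coeff i)) := by
      intro i
      rw [ov.reg, hqc]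
      by_cases hci : p.coeff i = 0
      · left
        rw [hci, zero_mul, mul_zero]
      · right
        rw [w.ord_mul (inv_ne_zero hd0) (mul_ne_zero hci (pow_ne_zero _ (inv_ne_zero hb))),
          w.ord_mul hci (pow_ne_zero _ (inv_ne_zero hb)), w.ord_pow, w.ord_inv, w.ord_inv, hba, hwd]
        have := mu_le w a hci
        linarith
    have h1 := ord_aeval_of_transc hF (s := algebraMap κ K b * z) (Or.inr hbz.ge) hs hqr hqi0
    have h2 : aeval z p = algebraMap κ K d * aeval (algebraMap κ K b * z) q := by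
      have e1 : aeval (algebraMap κ K b * z) q = algebraMap κ K d⁻¹ * aeval z p := by
        simp only [q]
        rw [map_mul (aeval (algebraMap κ K b * z)), aeval_C, aeval_comp,
          map_mul (aeval (algebraMap κ K b * z)), aeval_C, aeval_X,
          ← mul_assoc (algebraMap κ K b⁻¹), ← map_mul (algebraMap κ K) b⁻¹, inv_mul_cancel₀ hb,
          map_one, one_mul]
      rw [e1, ← mul_assoc, ← map_mul, mul_inv_cancel₀ hd0, map_one, one_mul]
    rw [h2, P.ord_mul (by rwa [Ne, map_eq_zero]) h1.1, h1.2, ov.2, hwd, add_zero]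
  apply Place.eq_of_le
  intro f hf0 hfo
  obtain ⟨p, q, hq, hfpq⟩ := g1.gen f
  have hp : p ≠ 0 := by
    rintro rfl
    rw [map_zero, zero_div] at hfpq
    exact hf0 hfpq
  rw [hfpq, P.ord_div (g1.ne hp) (g1.ne hq), hpol p hp, hpol q hq, ← mul_sub] at hfo
  rw [hfpq, Place.ord_div _ (g1.ne hp) (g1.ne hq), gp_ord g1 w a hp, gp_ord g1 w a hq]
  exact nonneg_of_mul_nonneg_right hfo he

/-- two algebraically independent elements of a field of transcendence degree two -/
theorem full_of_ind (hn : Algebra.trdeg ℂ κ = 2) {a b : κ}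
    (h : AlgebraicIndependent ℂ ![a, b]) : Full {a, b} := by
  have h1 : IsTranscendenceBasis ℂ ![a, b] :=
    h.isTranscendenceBasis_of_trdeg_le_of_finite (by rw [hn]; simp)
  rw [AlgebraicIndependent.isTranscendenceBasis_iff_isAlgebraic h] at h1
  intro x
  have h2 := h1.isAlgebraic x
  rw [alg_adjoin_iff] at h2
  have hrange : Set.range ![a, b] = {a, b} := by
    rw [Matrix.range_cons, Matrix.range_cons, Matrix.range_empty]
    ext x
    simp [or_comm]
  rwa [hrange] at h2

theorem triv_of_full {P : Place ℂ K} {a b : κ} (hF : Full {a, b})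
    (h : Triv P (IntermediateField.adjoin ℂ {algebraMap κ K a, algebraMap κ K b})) (x : κ)
    (hx : x ≠ 0) : P.ord (algebraMap κ K x) = 0 := by
  have h2 : IsAlgebraic (IntermediateField.adjoin ℂ {algebraMap κ K a, algebraMap κ K b})
      (algebraMap κ K x) := by
    have h3 := mem_acl.1 (hF x)
    let φ : IntermediateField.adjoin ℂ {a, b} →+*
        IntermediateField.adjoin ℂ {algebraMap κ K a, algebraMap κ K b} :=
      ((algebraMap κ K).comp (algebraMap (IntermediateField.adjoin ℂ {a, b}) κ)).codRestrict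
        (IntermediateField.adjoin ℂ {algebraMap κ K a, algebraMap κ K b}).toSubring
        (fun x => by
          have h4 := IntermediateField.adjoin_map ℂ {a, b} (IsScalarTower.toAlgHom ℂ κ K)
          have h5 : (IsScalarTower.toAlgHom ℂ κ K : κ →ₐ[ℂ] K) '' {a, b} =
              {algebraMap κ K a, algebraMap κ K b} := Set.image_pair _ _ _
          rw [h5] at h4
          change algebraMap κ K (x : κ) ∈ IntermediateField.adjoin ℂ _
          rw [← h4]
          exact ⟨x, x.2, rfl⟩)
    exact h3.ringHom_of_comp_eq φ (algebraMap κ K) φ.injective (by ext; rfl)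
  exact triv_alg h h2 (by rwa [Ne, map_eq_zero])

/-- the residues of the functions of `κ` are algebraic over one of them, if the place is not trivial
on `κ` -/
theorem red_mem (hn : Algebra.trdeg ℂ κ = 2) {P : Place ℂ K} {t : κ}
    (ht0 : t ≠ 0) (ht : P.ord (algebraMap κ K t) ≠ 0) {u : κ} (hu : P.Reg (algebraMap κ K u))
    (hut : Transcendental ℂ (P.red (algebraMap κ K u))) (c : κ) (hc : P.Reg (algebraMap κ K c)) :
    P.red (algebraMap κ K c) ∈ acl (IntermediateField.adjoin ℂ {P.red (algebraMap κ K u)}) := by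
  by_contra hcon
  have h1 : AlgebraicIndependent ℂ ![P.red (algebraMap κ K u), P.red (algebraMap κ K c)] :=
    ind_pair.2 ⟨hut, hcon⟩
  have h2 := triv_pair hu hc h1
  have h3 : AlgebraicIndependent ℂ ![u, c] := by
    have h4 : Res P ![algebraMap κ K u, algebraMap κ K c] := by
      refine res_of_red (fun i => ?_) ?_
      · fin_cases i
        · exact hu
        · exact hc
      · have h2 : (fun i => P.red (![algebraMap κ K u, algebraMap κ K c] i)) =
            ![P.red (algebraMap κ K u), P.red (algebraMap κ K c)] := by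
          funext i
          fin_cases i
          · rfl
          · rfl
        rw [h2]
        exact h1
    have h5 := h4.ind
    have h6 : (IsScalarTower.toAlgHom ℂ κ K : κ → K) ∘ ![u, c] =
        ![algebraMap κ K u, algebraMap κ K c] := by
      funext i
      fin_cases i
      · rfl
      · rfl
    rw [← h6] at h5
    exact (AlgHom.algebraicIndependent_iff (IsScalarTower.toAlgHom ℂ κ K)
      (algebraMap κ K).injective).1 h5
  exact ht (triv_of_full (full_of_ind hn h3) h2 t ht0)

end

end Pool.Agent.Q73.LT
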