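import Pool.Agent.Q73.LT.Main

/-!
The action of `SL₂(ℤ)` on the pairs of points of the curve `y ^ 2 = x ^ 3 + 1`, up to the diagonal
action of the third roots of unity.
-/

set_option autoImplicit false

open FF

namespace Pool.Agent.Q73.LT

namespace Crv

variable {κ : Type} [Field κ] [Algebra ℂ κ] (E : Crv κ)

/-- the function field is generated by the coordinates -/
def Gen : Prop := IntermediateField.adjoin ℂ {E.y1, E.y2, E.θ} = ⊤

/-- the pair `(P₂, P₁)` -/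
noncomputable def swap : Crv κ where
  y1 := E.y2
  y2 := E.y1
  θ := E.θ⁻¹
  rel := by
    have h := E.rel
    have hθ := E.θ_ne
    rw [h]
    field_simp
  nd := by
    intro t h1 h2
    exact E.nd t h2 h1

/-- the pair `(-P₁, P₂)` -/
noncomputable def neg : Crv κ where
  y1 := -E.y1
  y2 := E.y2
  θ := E.θ
  rel := by
    rw [neg_sq]
    exact E.rel
  nd := by
    intro t h1 h2
    refine E.nd t ?_ h2
    rw [← neg_neg E.y1]
    exact neg_mem h1

/-- the slope of the chord -/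
noncomputable def sl : κ := (E.y2 - E.y1) / (E.θ - 1)

/-- the abscissa of `P₁ + P₂`, divided by the one of `P₁` -/
noncomputable def ax : κ := E.sl ^ 2 / E.c - 1 - E.θ

/-- the ordinate of `P₁ + P₂` -/
noncomputable def ay : κ := -(E.sl * (E.ax - 1) + E.y1)

theorem y2_eq : E.y2 = E.y1 + E.sl * (E.θ - 1) := by
  have h : E.θ - 1 ≠ 0 := sub_ne_zero.2 E.θ_ne_one
  unfold sl
  rw [div_mul_cancel₀ _ h]
  ring

theorem sl_sq : E.sl ^ 2 = E.c * (E.ax + 1 + E.θ) := by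
  have h := E.c_ne
  unfold ax
  field_simp
  ring

theorem sl_rel : 2 * E.y1 * E.sl + E.sl ^ 2 * (E.θ - 1) = E.c * (E.θ ^ 2 + E.θ + 1) := by
  have h : E.θ - 1 ≠ 0 := sub_ne_zero.2 E.θ_ne_one
  have h1 := E.rel
  have h2 := E.y2_eq
  have h3 : E.c = E.y1 ^ 2 - 1 := rfl
  rw [h2] at h1
  apply mul_right_cancel₀ h
  rw [h3]
  linear_combination h1

theorem add_rel : E.ay ^ 2 - 1 = E.ax ^ 3 * (E.y1 ^ 2 - 1) := by
  have h1 := E.sl_rel
  have h2 := E.sl_sq
  have h3 : E.c = E.y1 ^ 2 - 1 := rfl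
  have h4 : E.ay ^ 2 - 1 - E.ax ^ 3 * E.c = (E.ax - 1) * ((E.ax - E.θ) *
      (E.sl ^ 2 - E.c * (E.ax + 1 + E.θ)) + (2 * E.y1 * E.sl + E.sl ^ 2 * (E.θ - 1) -
        E.c * (E.θ ^ 2 + E.θ + 1))) + (E.y1 ^ 2 - 1 - E.c) := by
    unfold ay
    ring
  rw [← h3, ← sub_eq_zero, h4, h1, h2, h3]
  ring

theorem ax_ne_one : E.ax ≠ 1 := by
  intro h
  have hc := E.c_ne
  have hθ : E.θ - 1 ≠ 0 := sub_ne_zero.2 E.θ_ne_one
  have h1 := E.sl_rel
  have h2 := E.sl_sq
  have h3 : E.y1 ^ 2 = E.c + 1 := by unfold c; ring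
  rw [h] at h2
  -- `2 y₁ s = c (1 + 1 + 1 ...)`
  have h4 : 2 * E.y1 * E.sl = E.c * 3 := by linear_combination h1 - (E.θ - 1) * h2
  have h5 : 4 * (E.c + 1) * (E.c * (2 + E.θ)) = 9 * E.c ^ 2 := by
    have : (2 * E.y1 * E.sl) ^ 2 = (E.c * 3) ^ 2 := by rw [h4]
    linear_combination this - 4 * E.sl ^ 2 * h3 - 4 * (E.c + 1) * h2
  have h6 : 4 * (E.c + 1) * (2 + E.θ) = 9 * E.c := by
    apply mul_right_cancel₀ hc
    linear_combination h5
  have h7 : E.c * (4 * E.θ - 1) = -4 * (2 + E.θ) := by linear_combination h6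
  have h8 : 4 * E.θ - 1 ≠ 0 := by
    intro h9
    rw [h9, mul_zero] at h7
    have h10 : (9 : κ) = 0 := by linear_combination (-1 : κ) * h9 + h7
    have : CharZero κ := charZero_of_injective_algebraMap (algebraMap ℂ κ).injective
    norm_num at h10
  have h9 : E.c = -4 * (2 + E.θ) / (4 * E.θ - 1) := by
    rw [eq_div_iff h8, h7]
  refine E.nd' E.θ ?_ (self_mem _)
  rw [h9]
  have h10 : (4 : κ) = algebraMap ℂ κ 4 := by rw [map_ofNat]
  have h11 : (2 : κ) = algebraMap ℂ κ 2 := by rw [map_ofNat]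
  have m4 : (4 : κ) ∈ acl (IntermediateField.adjoin ℂ {E.θ}) := by
    rw [h10]
    exact IntermediateField.algebraMap_mem _ _
  have m2 : (2 : κ) ∈ acl (IntermediateField.adjoin ℂ {E.θ}) := by
    rw [h11]
    exact IntermediateField.algebraMap_mem _ _
  exact div_mem (mul_mem (neg_mem m4) (add_mem m2 (self_mem _)))
    (sub_mem (mul_mem m4 (self_mem _)) (one_mem _))

theorem ay_add : E.ay + E.y1 = -E.sl * (E.ax - 1) := by
  unfold ay
  ring

theorem θ_of_add : E.θ = (E.ay + E.y1) ^ 2 / (E.c * (E.ax - 1) ^ 2) - 1 - E.ax := by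
  have hc := E.c_ne
  have hx : E.ax - 1 ≠ 0 := sub_ne_zero.2 E.ax_ne_one
  have h1 : (E.ay + E.y1) ^ 2 / (E.c * (E.ax - 1) ^ 2) = E.sl ^ 2 / E.c := by
    rw [ay_add]
    field_simp
  rw [h1]
  unfold ax
  ring

theorem y2_of_add : E.y2 = -(E.ay + (E.ay + E.y1) / (E.ax - 1) * (E.θ - E.ax)) := by
  have hx : E.ax - 1 ≠ 0 := sub_ne_zero.2 E.ax_ne_one
  have h1 : (E.ay + E.y1) / (E.ax - 1) = -E.sl := by
    rw [ay_add, mul_div_cancel_right₀ _ hx]
  rw [h1, E.y2_eq]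
  unfold ay
  ring

theorem cube_closed {F : IntermediateField ℂ κ} {x a : κ} (ha : a ∈ acl F) (h : x ^ 3 = a) :
    x ∈ acl F := by
  apply acl_closed
  refine ⟨Polynomial.X ^ 3 - Polynomial.C ⟨a, ha⟩,
    Polynomial.X_pow_sub_C_ne_zero (by norm_num) _, ?_⟩
  rw [map_sub, map_pow, Polynomial.aeval_X, Polynomial.aeval_C, h]
  exact sub_self a

/-- the pair `(P₁, P₁ + P₂)` -/
noncomputable def add : Crv κ where
  y1 := E.y1
  y2 := E.ay
  θ := E.ax
  rel := E.add_rel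
  nd := by
    intro t h1 h2
    have hc : E.c ∈ acl (IntermediateField.adjoin ℂ {t}) := sub_mem (pow_mem h1 2) (one_mem _)
    have hx : E.ax ∈ acl (IntermediateField.adjoin ℂ {t}) := by
      refine cube_closed (a := (E.ay ^ 2 - 1) / E.c)
        (div_mem (sub_mem (pow_mem h2 2) (one_mem _)) hc) ?_
      rw [E.add_rel, eq_div_iff E.c_ne]
      rfl
    refine E.nd' t hc ?_
    rw [θ_of_add]
    exact sub_mem (sub_mem (div_mem (pow_mem (add_mem h2 h1) 2)
      (mul_mem hc (pow_mem (sub_mem hx (one_mem _)) 2))) (one_mem _)) hx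

variable {E}

theorem Gen.swap (h : E.Gen) : E.swap.Gen := by
  unfold Gen at h ⊢
  rw [eq_top_iff, ← h, IntermediateField.adjoin_le_iff]
  rintro x (rfl | rfl | rfl)
  · exact IntermediateField.subset_adjoin ℂ _ (by simp [Crv.swap])
  · exact IntermediateField.subset_adjoin ℂ _ (by simp [Crv.swap])
  · have h1 : E.θ⁻¹ ∈ IntermediateField.adjoin ℂ {E.swap.y1, E.swap.y2, E.swap.θ} :=
      IntermediateField.subset_adjoin ℂ _ (by simp [Crv.swap])
    have h2 := inv_mem h1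
    rwa [inv_inv] at h2

theorem Gen.neg (h : E.Gen) : E.neg.Gen := by
  unfold Gen at h ⊢
  rw [eq_top_iff, ← h, IntermediateField.adjoin_le_iff]
  rintro x (rfl | rfl | rfl)
  · have h1 : -E.y1 ∈ IntermediateField.adjoin ℂ {E.neg.y1, E.neg.y2, E.neg.θ} :=
      IntermediateField.subset_adjoin ℂ _ (by simp [Crv.neg])
    have h2 := neg_mem h1
    rwa [neg_neg] at h2
  · exact IntermediateField.subset_adjoin ℂ _ (by simp [Crv.neg])
  · exact IntermediateField.subset_adjoin ℂ _ (by simp [Crv.neg])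

theorem Gen.add (h : E.Gen) : E.add.Gen := by
  unfold Gen at h ⊢
  rw [eq_top_iff, ← h, IntermediateField.adjoin_le_iff]
  have h1 : E.y1 ∈ IntermediateField.adjoin ℂ {E.add.y1, E.add.y2, E.add.θ} :=
    IntermediateField.subset_adjoin ℂ _ (by simp [Crv.add])
  have h2 : E.ay ∈ IntermediateField.adjoin ℂ {E.add.y1, E.add.y2, E.add.θ} :=
    IntermediateField.subset_adjoin ℂ _ (by simp [Crv.add])
  have h3 : E.ax ∈ IntermediateField.adjoin ℂ {E.add.y1, E.add.y2, E.add.θ} :=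
    IntermediateField.subset_adjoin ℂ _ (by simp [Crv.add])
  have hc : E.c ∈ IntermediateField.adjoin ℂ {E.add.y1, E.add.y2, E.add.θ} :=
    sub_mem (pow_mem h1 2) (one_mem _)
  have hθ : E.θ ∈ IntermediateField.adjoin ℂ {E.add.y1, E.add.y2, E.add.θ} := by
    have h5 := sub_mem (sub_mem (div_mem (pow_mem (add_mem h2 h1) 2)
      (mul_mem hc (pow_mem (sub_mem h3 (one_mem _)) 2))) (one_mem _)) h3
    rwa [← E.θ_of_add] at h5
  have hy : E.y2 ∈ IntermediateField.adjoin ℂ {E.add.y1, E.add.y2, E.add.θ} := by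
    have h5 := neg_mem (add_mem h2 (mul_mem (div_mem (add_mem h2 h1) (sub_mem h3 (one_mem _)))
      (sub_mem hθ h3)))
    rwa [← E.y2_of_add] at h5
  rintro x (rfl | rfl | rfl)
  · exact h1
  · exact hy
  · exact hθ

variable (E)

/-- the pair `(P₂, P₁ + P₂)` -/
noncomputable def shift : Crv κ := E.swap.add

theorem Gen.shift {E : Crv κ} (h : E.Gen) : E.shift.Gen := h.swap.add

theorem shift_c : E.shift.c = E.c * E.θ ^ 3 := by
  have h : E.shift.c = E.y2 ^ 2 - 1 := rfl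
  rw [h, E.rel]
  unfold c
  ring

theorem swap_c : E.swap.c = E.c * E.θ ^ 3 := E.shift_c

theorem x_zero : E.x 0 = (E.y2 + E.y1) ^ 2 / (E.c * (E.θ - 1) ^ 2) - 1 - E.θ := by rw [x]

/-- the abscissa of `P₁ + P₂` is the third one -/
theorem x_three_eq : E.x 3 = E.ax := by
  have h := E.x_three 0
  have hc := E.c_ne
  have hθ : E.θ - 1 ≠ 0 := sub_ne_zero.2 E.θ_ne_one
  have hθ' : 1 - E.θ ≠ 0 := sub_ne_zero.2 E.θ_ne_one.symm
  rw [zero_add, zero_add, zero_add, x_one, x_two, x_zero] at h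
  rw [h]
  have h1 : E.y1 ^ 2 = E.c + 1 := by unfold c; ring
  have h2 : E.y2 ^ 2 = E.θ ^ 3 * E.c + 1 := by
    have := E.rel
    unfold c
    linear_combination this
  unfold ax sl
  have h3 : (1 - E.θ) ^ 2 = (E.θ - 1) ^ 2 := by ring
  rw [h3]
  field_simp
  linear_combination (-2 : κ) * h1 - 2 * h2

theorem x_three_pow : E.x 3 = (E.y2 - E.y1) ^ 2 / (E.c * (E.θ - 1) ^ 2) - 1 - E.θ := by
  rw [x_three_eq]
  unfold ax sl
  have hc := E.c_ne
  have hθ : E.θ - 1 ≠ 0 := sub_ne_zero.2 E.θ_ne_one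
  field_simp

theorem neg_x_three : E.neg.x 3 = E.x 0 := by
  rw [x_three_pow, x_zero]
  have h1 : E.neg.c = E.c := by
    unfold c neg
    rw [neg_sq]
  rw [h1]
  have h2 : E.neg.y2 - E.neg.y1 = E.y2 + E.y1 := sub_neg_eq_add _ _
  rw [h2]
  rfl

theorem neg_x_zero : E.neg.x 0 = E.x 3 := by
  rw [x_three_pow, x_zero]
  have h1 : E.neg.c = E.c := by
    unfold c neg
    rw [neg_sq]
  rw [h1]
  have h2 : E.neg.y2 + E.neg.y1 = E.y2 - E.y1 := (sub_eq_add_neg _ _).symm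
  rw [h2]
  rfl

theorem shift_x0 : E.shift.x 0 * E.θ = 1 := by
  -- `P₀` of the shift is `(P₁ + P₂) - P₂ = P₁`
  have h : E.shift.x 0 = (E.swap.ay + E.swap.y1) ^ 2 / (E.swap.c * (E.swap.ax - 1) ^ 2) - 1 -
      E.swap.ax := E.shift.x_zero
  rw [h, ← E.swap.θ_of_add]
  exact inv_mul_cancel₀ E.θ_ne

theorem shift_x2 : E.shift.x 2 * E.θ = E.x 3 := by
  have h : E.shift.x 2 = E.swap.ax := E.shift.x_two
  have hc := E.c_ne
  have hθ0 := E.θ_ne
  have hθ : E.θ - 1 ≠ 0 := sub_ne_zero.2 E.θ_ne_one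
  have hθ' : E.θ⁻¹ - 1 ≠ 0 := sub_ne_zero.2 E.swap.θ_ne_one
  rw [h, x_three_pow]
  have h1 : E.swap.ax = (E.y1 - E.y2) ^ 2 / (E.c * E.θ ^ 3 * (E.θ⁻¹ - 1) ^ 2) - 1 - E.θ⁻¹ := by
    rw [← E.swap.x_three_eq, E.swap.x_three_pow, swap_c]
    rfl
  rw [h1]
  have h2 : E.θ ^ 3 * (E.θ⁻¹ - 1) ^ 2 = E.θ * (E.θ - 1) ^ 2 := by
    field_simp
    ring
  rw [mul_assoc, h2]
  field_simp
  ring

theorem shift_x (n : ℕ) : E.shift.x n * E.θ = E.x (n + 1) := by
  induction n using Nat.strong_induction_on with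
  | _ n ih =>
    match n with
    | 0 => rw [shift_x0, zero_add, x_one]
    | 1 => rw [x_one, one_mul]; exact E.x_two.symm
    | 2 => exact E.shift_x2
    | n + 3 =>
      have h1 := ih (n + 1) (by omega)
      have h2 := ih (n + 2) (by omega)
      have h0 := ih n (by omega)
      have hc := E.c_ne
      have hθ0 := E.θ_ne
      have hne : E.x (n + 2) - E.x (n + 3) ≠ 0 := sub_ne_zero.2 (E.good (n + 1)).ne
      have e1 : E.shift.x (n + 1) = E.x (n + 2) / E.θ := by rw [eq_div_iff hθ0, h1]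
      have e2 : E.shift.x (n + 2) = E.x (n + 3) / E.θ := by rw [eq_div_iff hθ0, h2]
      have e0 : E.shift.x n = E.x (n + 1) / E.θ := by rw [eq_div_iff hθ0, h0]
      rw [E.shift.x_three, e0, e1, e2, shift_c, E.x_three (n + 1)]
      have hd : E.x (n + 2) / E.θ - E.x (n + 3) / E.θ = (E.x (n + 2) - E.x (n + 3)) / E.θ := by
        ring
      rw [hd]
      field_simp

theorem shift_C (n : ℕ) : E.shift.C n = E.C (n + 1) := by
  unfold C
  rw [shift_c, ← E.shift_x n]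
  ring

theorem neg_c : E.neg.c = E.c := by
  unfold c neg
  rw [neg_sq]

theorem neg_C_one : E.neg.C 1 = E.C 1 := by
  unfold C
  rw [neg_c, x_one, x_one]

theorem neg_C_two : E.neg.C 2 = E.C 2 := by
  unfold C
  rw [neg_c, x_two, x_two]
  rfl

theorem neg_C_three : E.neg.C 3 = E.C 0 := by
  unfold C
  rw [neg_c, neg_x_three]

theorem neg_C_zero : E.neg.C 0 = E.C 3 := by
  unfold C
  rw [neg_c, neg_x_zero]

/-- the coordinates of `P₁ + P₂` -/
theorem C_three_add : E.add.C 2 = E.C 3 := by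
  have h : E.add.C 2 = E.add.c * E.add.x 2 ^ 3 := rfl
  rw [h, x_two]
  unfold C
  rw [x_three_eq]
  rfl

theorem add_C_one : E.add.C 1 = E.C 1 := by
  rw [C_one, C_one]
  rfl

end Crv

end Pool.Agent.Q73.LT
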