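import Pool.Agent.Q73.FL.Vs

/-!
The base points of the system of the third point on the base of the flip.
-/

set_option autoImplicit false

open FF Pool.Agent.W603.LV Pool.Agent.W602.GT

namespace Pool.Agent.Q73.LT

section

variable {K : Type} [Field K] [Algebra ℂ K]

theorem fac_left {w z : Sys K} {P : Place ℂ K} {f g : K} (hf : Top w f P) (hg : g ∈ w.s) :
    g / f ∈ localRing (w.mul z) P := by
  rw [Sys.mul_comm']
  exact dom_mul z w P (nchart_localRing hf (gen_mem hg))

theorem fac_right {w z : Sys K} {P : Place ℂ K} {f g : K} (hf : Top z f P) (hg : g ∈ z.s) :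
    g / f ∈ localRing (w.mul z) P := dom_mul w z P (nchart_localRing hf (gen_mem hg))

end

namespace Exa

variable {κ K : Type} [Field κ] [Algebra ℂ κ] [Field K] [Algebra ℂ K] [Algebra κ K]
  (E : Exa κ K)

theorem fac1 {P : Place ℂ K} {f g : K} (hf : Top (E.V 1) f P) (hg : g ∈ (E.V 1).s) :
    g / f ∈ localRing E.zm P := fac_left hf hg

theorem fac2 {P : Place ℂ K} {f g : K} (hf : Top (E.V 2) f P) (hg : g ∈ (E.V 2).s) :
    g / f ∈ localRing E.zm P := dom_mul _ _ _ (fac_left hf hg)

theorem one_VV {t : K} {h : t ≠ 0} : (1 : K) ∈ (E.VV t h).s := (mem_VV E).2 (Or.inl rfl)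
theorem t_VV {t : K} {h : t ≠ 0} : t ∈ (E.VV t h).s := (mem_VV E).2 (Or.inr (Or.inl rfl))
theorem zi_VV {t : K} {h : t ≠ 0} : E.zi ∈ (E.VV t h).s := (mem_VV E).2 (Or.inr (Or.inr rfl))

theorem zm_model (hS : Model E.S1) : Model E.zm := by
  refine hS.of_le (IntermediateField.adjoin.mono _ _ _ ?_)
  rintro h ⟨f, hf, g, hg, rfl⟩
  exact ⟨f, E.S1_sub hf, g, E.S1_sub hg, rfl⟩

variable {E}

/-- the local argument at a point of the two other flipped curves -/
theorem lb_aux {a b t : K} (ha : a ≠ 0) (hb : b ≠ 0) (ht0 : t ≠ 0) {Q : Place ℂ K}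
    (hz : Model E.zm)
    (m1 : 1 / E.zi ∈ localRing E.zm Q) (m2 : b / E.zi ∈ localRing E.zm Q)
    (m3 : 1 / a ∈ localRing E.zm Q) (m4 : E.zi / a ∈ localRing E.zm Q)
    (hQ : Q.ord a < Q.ord b)
    (hP0 : ∀ P, IsPrimeDivisor E.zm P → 0 < E.lam P → P.ord t = - E.lam P)
    (hP1 : ∀ P : Place ℂ K, 0 ≤ P.ord b → P.ord a ≤ 0 → P.ord t < 0 →
      P.ord a = 0 ∧ Ge P 1 (b - a)) : t / E.zi ∈ localRing E.zm Q := by
  have hi := E.zi_ne
  refine mem_localRing_of_reg hz fun P hP hPQ => ?_
  right
  rw [P.ord_div ht0 hi]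
  have hl := E.lam_eq P
  have hl0 := E.lam_nonneg P
  have oz := E.zi_ord P
  rcases hl0.lt_or_eq with h0 | h0
  · have := hP0 P hP h0
    omega
  have n1 := (P.reg_iff (div_ne_zero one_ne_zero hi)).1 (hPQ _ m1)
  rw [one_div, P.ord_inv] at n1
  have n2 := (P.reg_iff (div_ne_zero hb hi)).1 (hPQ _ m2)
  rw [P.ord_div hb hi] at n2
  have n3 := (P.reg_iff (div_ne_zero one_ne_zero ha)).1 (hPQ _ m3)
  rw [one_div, P.ord_inv] at n3
  by_contra hneg
  obtain ⟨oa, hba⟩ := hP1 P (by omega) (by omega) (by omega)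
  have he : b / a ∈ localRing E.zm Q := by
    have h1 := localRing_mul m2 m4
    have h2 : b / E.zi * (E.zi / a) = b / a := by field_simp
    rwa [h2] at h1
  have he1 : -1 + b / a ∈ localRing E.zm Q := by
    have h1 := localRing_add (localRing_const (y := E.zm) (P := Q) (-1)) he
    rwa [map_neg, map_one] at h1
  have h2 := Q.ord_add_eq (f := (-1 : K)) (g := b / a) (neg_ne_zero.2 one_ne_zero)
    (div_ne_zero hb ha) (by
      rw [Q.ord_neg_one, Q.ord_div hb ha]
      omega)
  rw [Q.ord_neg_one] at h2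
  have h3 := hPQ _ (localRing_inv he1 h2.1 h2.2)
  have h4 := (P.reg_iff (inv_ne_zero h2.1)).1 h3
  rw [P.ord_inv] at h4
  have h5 : -1 + b / a = (b - a) / a := by
    field_simp
    ring
  rw [h5] at h4 h2
  rcases hba with h6 | h6
  · exact h2.1 (by rw [h6, zero_div])
  · have h7 : b - a ≠ 0 := fun h8 => h2.1 (by rw [h8, zero_div])
    rw [P.ord_div h7 ha] at h4
    omega

theorem lb {t : κ} (T : E.Trip t) (hS : Model E.S1) (hn3 : Algebra.trdeg ℂ K = (3 : ℕ))
    {Q : Place ℂ K} (h : ¬ (E.H 1 Q < E.lam Q ∧ E.H 2 Q < E.lam Q)) :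
    LB E.zm (E.VV (algebraMap κ K t) (map_ne T.ne)) Q := by
  have hz := E.zm_model hS
  have t0 : algebraMap κ K t ≠ 0 := map_ne T.ne
  have c1 := map_ne (K := K) (E.C_ne 1)
  have c2 := map_ne (K := K) (E.C_ne 2)
  have hi := E.zi_ne
  have hl := E.lam_eq Q
  have hl0 := E.lam_nonneg Q
  have h10 := E.H_nonneg 1 Q
  have h20 := E.H_nonneg 2 Q
  have oz := E.zi_ord Q
  have hpd : ∀ P, IsPrimeDivisor E.zm P → 0 < E.lam P →
      P.ord (algebraMap κ K t) = - E.lam P := by
    intro P hP hlP
    obtain ⟨-, -, h3⟩ := class_zm T hP (hP.divisorial hz hn3) hlP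
    rw [ord_of_ht (by omega), h3]
  by_cases hA : E.lam Q ≤ E.H 1 Q ∧ E.lam Q ≤ E.H 2 Q
  · -- the centre is not on the curves
    have hsub : localRing E.S1 Q ⊆ localRing E.zm Q := by
      obtain ⟨f, hf⟩ := exists_top E.S1 Q
      refine localRing_mono E.S1_sub hf ?_
      rw [top_iff (E.S1_sub hf.1), ← hf.L, L_zm, L_S1]
      omega
    obtain ⟨f0, hf0, hg0⟩ := (T.cof t0).bpf hS Q
    obtain ⟨f3, hf3, hg3⟩ := E.cof_S1_3.bpf hS Q
    rcases hl0.lt_or_eq with hlp | hl1
    · -- `λ > 0`
      have htQ : E.lam Q ≤ ht Q (algebraMap κ K t) := by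
        rcases lt_trichotomy (E.H 1 Q) (E.H 2 Q) with h1 | h1 | h1
        · rw [T.lt12 Q h1]
          exact hA.1
        · exact hA.1.trans (T.eq12 Q h1)
        · rw [T.lt21 Q h1]
          exact hA.2
      have hf0t : f0 = algebraMap κ K t := by
        rcases (mem_pen _).1 hf0 with h1 | h1
        · exfalso
          have h2 := hg0 (algebraMap κ K t) ((mem_pen _).2 (Or.inr rfl))
          rw [h1, div_one] at h2
          have h3 := (Q.reg_iff t0).1 (localRing_reg h2)
          have h4 := ord_of_ht (P := Q) (t := algebraMap κ K t) (by omega)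
          omega
        · exact h1
      subst hf0t
      have m1 := hsub (hg0 1 ((mem_pen _).2 (Or.inl rfl)))
      refine ⟨algebraMap κ K t, E.t_VV, fun g hg => ?_⟩
      rcases (mem_VV E).1 hg with rfl | rfl | rfl
      · exact m1
      · rw [div_self t0]
        exact localRing_one Q
      · refine mem_localRing_of_reg hz fun P hP hPQ => ?_
        have hlP := E.lam_eq P
        have ozP := E.zi_ord P
        rcases (E.lam_nonneg P).lt_or_eq with h0 | h0
        · right
          rw [P.ord_div hi t0, hpd P hP h0]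
          omega
        · rw [div_eq_mul_one_div]
          exact P.reg_mul (Or.inr (by omega)) (hPQ _ m1)
    · -- `λ = 0`
      have mz : E.z⁻¹ ∈ localRing E.S1 Q := by
        rcases (mem_pen _).1 hf3 with h1 | h1
        · have h2 := hg3 E.z ((mem_pen _).2 (Or.inr rfl))
          rw [h1, div_one] at h2
          have h3 := (Q.reg_iff E.z_ne).1 (localRing_reg h2)
          exact localRing_inv h2 E.z_ne (by omega)
        · have h2 := hg3 1 ((mem_pen _).2 (Or.inl rfl))
          rwa [h1, one_div] at h2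
      have mzi : E.zi ∈ localRing E.zm Q := by
        have h1 := localRing_mul mz mz
        rw [← sq] at h1
        exact hsub h1
      refine ⟨f0, ?_, fun g hg => ?_⟩
      · rcases (mem_pen _).1 hf0 with h1 | h1
        · rw [h1]
          exact E.one_VV
        · rw [h1]
          exact E.t_VV
      · rcases (mem_VV E).1 hg with rfl | rfl | rfl
        · exact hsub (hg0 1 ((mem_pen _).2 (Or.inl rfl)))
        · exact hsub (hg0 _ ((mem_pen _).2 (Or.inr rfl)))
        · rw [div_eq_mul_one_div]
          exact localRing_mul mzi (hsub (hg0 1 ((mem_pen _).2 (Or.inl rfl))))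
  · have hlp : 0 < E.lam Q := by omega
    have hfin : 1 / E.zi ∈ localRing E.zm Q →
        algebraMap κ K t / E.zi ∈ localRing E.zm Q →
        LB E.zm (E.VV (algebraMap κ K t) (map_ne T.ne)) Q := by
      intro m1 m2
      refine ⟨E.zi, E.zi_VV, fun g hg => ?_⟩
      rcases (mem_VV E).1 hg with rfl | rfl | rfl
      · exact m1
      · exact m2
      · rw [div_self hi]
        exact localRing_one Q
    by_cases hB : E.H 2 Q < E.lam Q
    · have h1 : E.lam Q ≤ E.H 1 Q := by omega
      have tp1 : Top (E.V 1) (algebraMap κ K (E.C 1)) Q := top_t h1 (by unfold H at *; omega)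
      have tp2 : Top (E.V 2) E.zi Q := top_zi hB.le hlp
      have m1 := E.fac2 tp2 E.one_VV
      have m2 := E.fac2 tp2 E.t_VV
      have m3 := E.fac1 tp1 E.one_VV
      have m4 := E.fac1 tp1 E.zi_VV
      refine hfin m1 (lb_aux c1 c2 t0 hz m1 m2 m3 m4 ?_ hpd ?_)
      · have o1 := ord_of_ht (P := Q) (t := algebraMap κ K (E.C 1)) (by unfold H at *; omega)
        have o2 := ord_ge_ht Q (algebraMap κ K (E.C 2))
        unfold H at *
        omega
      · intro P hb ha ht'
        have htp : 0 < ht P (algebraMap κ K t) := by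
          unfold ht
          omega
        have e2 : E.H 2 P = 0 := by
          unfold H ht
          omega
        have e1 : E.H 1 P = 0 := by
          by_contra hne
          have := E.H_nonneg 1 P
          have h3 := T.lt21 P (by omega)
          omega
        have o1 : P.ord (algebraMap κ K (E.C 1)) = 0 := by
          unfold H ht at e1
          omega
        refine ⟨o1, ?_⟩
        have h3 := (T.red P (by omega) (by omega)).neg
        rw [neg_sub] at h3
        exact h3.mono (by omega)
    · have hB' : E.lam Q ≤ E.H 2 Q := not_lt.1 hB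
      have h1 : E.H 1 Q < E.lam Q := by omega
      have tp1 : Top (E.V 1) E.zi Q := top_zi h1.le hlp
      have tp2 : Top (E.V 2) (algebraMap κ K (E.C 2)) Q := top_t hB' (by unfold H at *; omega)
      have m1 := E.fac1 tp1 E.one_VV
      have m2 := E.fac1 tp1 E.t_VV
      have m3 := E.fac2 tp2 E.one_VV
      have m4 := E.fac2 tp2 E.zi_VV
      refine hfin m1 (lb_aux c2 c1 t0 hz m1 m2 m3 m4 ?_ hpd ?_)
      · have o1 := ord_of_ht (P := Q) (t := algebraMap κ K (E.C 2)) (by unfold H at *; omega)
        have o2 := ord_ge_ht Q (algebraMap κ K (E.C 1))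
        unfold H at *
        omega
      · intro P hb ha ht'
        have htp : 0 < ht P (algebraMap κ K t) := by
          unfold ht
          omega
        have e2 : E.H 1 P = 0 := by
          unfold H ht
          omega
        have e1 : E.H 2 P = 0 := by
          by_contra hne
          have := E.H_nonneg 2 P
          have h3 := T.lt12 P (by omega)
          omega
        have o1 : P.ord (algebraMap κ K (E.C 2)) = 0 := by
          unfold H ht at e1
          omega
        refine ⟨o1, ?_⟩
        have h3 := T.red P (by omega) (by omega)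
        exact h3.mono (by omega)

/-- the local rings agree outside of the flipped curve -/
theorem loc_eq_of {t : κ} (T : E.Trip t) (hS : Model E.S1) (hn3 : Algebra.trdeg ℂ K = (3 : ℕ))
    {Q : Place ℂ K} (h : ¬ (E.H 1 Q < E.lam Q ∧ E.H 2 Q < E.lam Q)) :
    localRing ((E.VV (algebraMap κ K t) (map_ne T.ne)).mul E.zm) Q = localRing E.zm Q :=
  loc_eq (E.zm_model hS) (lb T hS hn3 h)

/-- the contraction is small -/
theorem small {t : κ} (T : E.Trip t) (hS : Model E.S1) (hn3 : Algebra.trdeg ℂ K = (3 : ℕ))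
    (P : Place ℂ K) :
    IsPrimeDivisor ((E.VV (algebraMap κ K t) (map_ne T.ne)).mul E.zm) P ↔
      IsPrimeDivisor E.zm P := by
  have hz := E.zm_model hS
  constructor
  · intro hP
    by_cases h : E.H 1 P < E.lam P ∧ E.H 2 P < E.lam P
    · exfalso
      obtain ⟨u, hu⟩ := exists_ind_red (hP.divisorial hz.mul hn3)
      have hlp : 0 < E.lam P := by
        have := E.H_nonneg 1 P
        omega
      have key : ∀ (S : Set P.RF) (f : K), GS P (IntermediateField.adjoin ℂ S)
          (E.VV (algebraMap κ K t) (map_ne T.ne)) f → Full S := fun S f hf =>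
        full_of_gs' hP ⟨_, hf.mul (GS.mul (w := (E.V 2).mul E.T3) (gs_zi h.1)
          ((gs_zi h.2).mul (gs_T3 hlp)))⟩
      rcases lt_or_ge (ht P (algebraMap κ K t)) (E.lam P) with h1 | h1
      · exact not_full_one hu 0 (key {0} _ (gs_zi h1))
      · exact not_full_one hu (P.red (E.zi / algebraMap κ K t))
          (key {P.red (E.zi / algebraMap κ K t)} _
            (gs_t h1 (by omega) (IntermediateField.subset_adjoin ℂ _ rfl)))
    · intro g hg
      have := hP g hg
      rwa [loc_eq_of T hS hn3 h] at this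
  · intro hP g hg
    exact dom_mul _ _ P (hP g hg)

end Exa

end Pool.Agent.Q73.LT
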