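import Pool.Agent.Q73.FL.Gau
import Pool.Agent.Q73.FL.Lb

/-!
The exceptional loci of the flips are irreducible.
-/

set_option autoImplicit false

open FF Pool.Agent.W603.LV Pool.Agent.W602.GT Polynomial

namespace Pool.Agent.Q73.LT

section

variable {K : Type} [Field K] [Algebra ℂ K] {y : Sys K}

theorem through_sub {P Q : Place ℂ K} (h : Through y P Q) : localRing y Q ⊆ localRing y P := by
  intro x hx
  obtain ⟨f, hf⟩ := exists_top y Q
  obtain ⟨a, ha, b, hb, hb0, hbo, hab⟩ := (mem_localRing hf).1 hx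
  have h1 := h _ (nchart_localRing hf hb)
  have h2 := h _ (localRing_inv (nchart_localRing hf hb) hb0 hbo)
  rw [P.reg_iff hb0] at h1
  rw [P.reg_iff (inv_ne_zero hb0), P.ord_inv] at h2
  exact (mem_localRing (h.top hf)).2 ⟨a, ha, b, hb, hb0, by omega, hab⟩

/-- **Krull's theorem** on a normal variety: a prime divisor in the zero set of a function -/
theorem exists_divisor (hy : Model y) {Q : Place ℂ K} {a : K} (ha0 : a ≠ 0) (hao : 0 < Q.ord a) :
    ∃ P, IsPrimeDivisor y P ∧ Through y P Q ∧ 0 < P.ord a := by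
  by_contra hcon
  push Not at hcon
  have h1 : a⁻¹ ∈ localRing y Q := by
    refine mem_localRing_of_reg hy fun P hP hPQ => ?_
    right
    rw [P.ord_inv]
    have := hcon P hP hPQ
    omega
  have h2 := (Q.reg_iff (inv_ne_zero ha0)).1 (localRing_reg h1)
  rw [Q.ord_inv] at h2
  omega

theorem not_full_of_dep {L : Type} [Field L] [Algebra ℂ L] {u : Fin 2 → L}
    (hu : AlgebraicIndependent ℂ u) {S : Set L}
    (h : ∀ a ∈ S, ∀ b ∈ S, ¬ AlgebraicIndependent ℂ ![a, b]) : ¬ Full S := by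
  intro hF
  by_cases hex : ∃ a ∈ S, Transcendental ℂ a
  · obtain ⟨a, ha, hat⟩ := hex
    refine not_full_one hu a (hF.sub fun b hb => ?_)
    by_contra hba
    exact h a ha b hb (ind_pair.2 ⟨hat, hba⟩)
  · push Not at hex
    refine not_full_empty hu (hF.sub fun b hb => ?_)
    have h1 := hex b hb
    unfold Transcendental at h1
    rw [not_not] at h1
    rw [mem_acl]
    exact h1.extendScalars (algebraMap ℂ _).injective

end

section

variable {κ K : Type} [Field κ] [Algebra ℂ κ] [Field K] [Algebra ℂ K] [Algebra κ K]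
  [IsScalarTower ℂ κ K]

theorem mem_poly {z : K} (g1 : Gen1 κ z) {A : Subalgebra ℂ K}
    (hA : ∀ x ∈ A, ∃ p : κ[X], x = aeval z p) {x : K} (hx : IsIntegral A x) :
    ∃ p : κ[X], x = aeval z p := by
  let _ : Algebra κ[X] K := (aeval z : κ[X] →ₐ[κ] K).toRingHom.toAlgebra
  have hfr : IsFractionRing κ[X] K := g1.frac
  let R0 : Subring K := (aeval z : κ[X] →ₐ[κ] K).toRingHom.range
  have h1 : IsIntegral R0 x := by
    obtain ⟨p, hp, hpx⟩ := hx
    let φ : A →+* R0 := A.subtype.codRestrict R0 fun a => by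
      obtain ⟨q, hq⟩ := hA a a.2
      exact ⟨q, hq.symm⟩
    refine ⟨p.map φ, hp.map _, ?_⟩
    rw [eval₂_map]
    exact hpx
  let _ : Algebra κ[X] R0 := (aeval z : κ[X] →ₐ[κ] K).toRingHom.rangeRestrict.toAlgebra
  have : IsScalarTower κ[X] R0 K := IsScalarTower.of_algebraMap_eq fun p => rfl
  have h2 : Algebra.IsIntegral κ[X] R0 := by
    refine ⟨fun r => ?_⟩
    obtain ⟨p, hp⟩ := (aeval z : κ[X] →ₐ[κ] K).toRingHom.rangeRestrict_surjective r
    rw [← hp]
    exact isIntegral_algebraMap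
  have h3 : IsIntegral κ[X] x := isIntegral_trans x h1
  rw [IsIntegrallyClosed.isIntegral_iff (R := κ[X]) (K := K)] at h3
  obtain ⟨p, hp⟩ := h3
  exact ⟨p, hp.symm⟩

end

namespace Exa

variable {κ K : Type} [Field κ] [Algebra ℂ κ] [Field K] [Algebra ℂ K] [Algebra κ K]
  [IsScalarTower ℂ κ K] {E : Exa κ K} {t : κ}

/-- the source of the contraction -/
noncomputable def ym (E : Exa κ K) (t : κ) (h : t ≠ 0) : Sys K :=
  (E.VV (algebraMap κ K t) (map_ne h)).mul E.zm

section zp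

variable (g1 : Gen1 κ E.z)

theorem zp_lam : E.lam (zp g1) = 2 := by
  rw [lam_eq, zp_z]
  rfl

theorem zp_H (n : ℕ) : E.H n (zp g1) = 0 := ht_zp g1 _

theorem top_zp (h : t ≠ 0) : Top (E.ym t h) (E.zi * (E.zi * (E.zi * 1))) (zp g1) := by
  have hl := zp_lam (E := E) g1
  have h0 : ∀ f : κ, ht (zp g1) (algebraMap κ K f) = 0 := ht_zp g1
  refine Top.mul (top_zi (by rw [h0, hl]; norm_num) (by rw [hl]; norm_num)) (Top.mul
    (top_zi (by rw [h0, hl]; norm_num) (by rw [hl]; norm_num)) (Top.mul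
      (top_zi (by rw [h0, hl]; norm_num) (by rw [hl]; norm_num)) ?_))
  exact (gs_T3 (F := ⊥) (by rw [hl]; norm_num)).top

theorem chart_poly (h : t ≠ 0) : ∀ x ∈ chart (E.ym t h) (E.zi * (E.zi * (E.zi * 1))),
    ∃ p : κ[X], x = aeval E.z p := by
  have hz := E.z_ne
  have hV : ∀ (s : κ) (hs : algebraMap κ K s ≠ 0), ∀ g ∈ (E.VV (algebraMap κ K s) hs).s,
      ∃ p : κ[X], g / E.zi = aeval E.z p := by
    intro s hs g hg
    rcases (mem_VV E).1 hg with rfl | rfl | rfl
    · refine ⟨X ^ 2, ?_⟩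
      unfold zi
      rw [map_pow, aeval_X]
      field_simp
    · refine ⟨C s * X ^ 2, ?_⟩
      unfold zi
      rw [map_mul, map_pow, aeval_X, aeval_C]
      field_simp
    · exact ⟨1, by rw [div_self E.zi_ne, map_one]⟩
  intro x hx
  unfold chart at hx
  induction hx using Algebra.adjoin_induction with
  | mem x hx =>
    obtain ⟨g, hg, rfl⟩ := hx
    obtain ⟨gt, hgt, g', hg', rfl⟩ := Sys.of_mem_mul hg
    obtain ⟨ga, hga, g'', hg'', rfl⟩ := Sys.of_mem_mul hg'
    obtain ⟨gb, hgb, g3, hg3, rfl⟩ := Sys.of_mem_mul hg''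
    obtain ⟨p1, h1⟩ := hV _ _ gt hgt
    obtain ⟨p2, h2⟩ := hV _ _ ga hga
    obtain ⟨p3, h3⟩ := hV _ _ gb hgb
    have h4 : ∃ p : κ[X], g3 / 1 = aeval E.z p := by
      rcases (mem_pen _).1 hg3 with rfl | rfl
      · exact ⟨1, by rw [div_one, map_one]⟩
      · exact ⟨X, by rw [div_one, aeval_X]⟩
    obtain ⟨p4, h4⟩ := h4
    refine ⟨p1 * (p2 * (p3 * p4)), ?_⟩
    rw [map_mul, map_mul, map_mul, ← h1, ← h2, ← h3, ← h4, div_mul_div_comm, div_mul_div_comm,
      div_mul_div_comm]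
  | algebraMap r =>
    refine ⟨C (algebraMap ℂ κ r), ?_⟩
    rw [aeval_C, ← IsScalarTower.algebraMap_apply]
  | add x x' _ _ h1 h2 =>
    obtain ⟨p, rfl⟩ := h1
    obtain ⟨p', rfl⟩ := h2
    exact ⟨p + p', (map_add _ _ _).symm⟩
  | mul x x' _ _ h1 h2 =>
    obtain ⟨p, rfl⟩ := h1
    obtain ⟨p', rfl⟩ := h2
    exact ⟨p * p', (map_mul _ _ _).symm⟩

include g1 in
/-- the functions on the source of the contraction near the centre of `zp` -/
theorem nchart_poly (h : t ≠ 0) {x : K}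
    (hx : x ∈ nchart (E.ym t h) (E.zi * (E.zi * (E.zi * 1)))) :
    ∃ (p : κ[X]) (c : ℂ), x = aeval E.z p ∧ p.coeff 0 = algebraMap ℂ κ c := by
  obtain ⟨p, hp⟩ := mem_poly g1 (chart_poly h) (mem_nchart.1 hx)
  have hl := zp_lam (E := E) g1
  have h0 : ∀ f : κ, ht (zp g1) (algebraMap κ K f) = 0 := ht_zp g1
  have hgs : GS (zp g1) ⊥ (E.ym t h) (E.zi * (E.zi * (E.zi * 1))) := by
    refine GS.mul (gs_zi (by rw [h0, hl]; norm_num)) (GS.mul
      (gs_zi (by rw [h0, hl]; norm_num)) (GS.mul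
        (gs_zi (by rw [h0, hl]; norm_num)) (gs_T3 (by rw [hl]; norm_num))))
  obtain ⟨c, hc⟩ := const_of_bot hgs.top (fun g hg => by
    obtain ⟨c, hc⟩ := IntermediateField.mem_bot.1 (hgs.2 g hg).2
    exact ⟨c, hc.symm⟩) (nchart_localRing hgs.top hx)
  refine ⟨p, c, hp, ?_⟩
  have hreg := hgs.top.reg x hx
  have h1 : (zp g1).red (x - algebraMap ℂ K c) = 0 := by
    rw [Place.red_sub _ hreg (Place.reg_const _ c), hc, Place.algebraMap_RF, sub_self]
  have h2 : x - algebraMap ℂ K c = aeval E.z (p - C (algebraMap ℂ κ c)) := by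
    rw [map_sub, aeval_C, ← hp, ← IsScalarTower.algebraMap_apply]
  have h3 : (p - C (algebraMap ℂ κ c)).coeff 0 = 0 := by
    by_contra hne
    have h4 : p - C (algebraMap ℂ κ c) ≠ 0 := by
      intro h5
      rw [h5, coeff_zero] at hne
      exact hne rfl
    rw [h2, Place.red_eq_zero_iff _ (by
      rw [← h2, sub_eq_add_neg]
      exact Place.reg_add _ hreg (Place.reg_neg _ (Place.reg_const _ c)))] at h1
    rcases h1 with h1 | h1
    · exact g1.ne h4 h1
    · rw [zp_ord g1 h4] at h1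
      have h5 := natTrailingDegree_eq_zero_of_constantCoeff_ne_zero (p := p - C (algebraMap ℂ κ c))
        hne
      omega
  rw [coeff_sub, coeff_C_zero, sub_eq_zero] at h3
  exact h3

end zp

variable (g1 : Gen1 κ E.z) {p0 : Place ℂ κ} {a : ℕ}

theorem ht_pol (hp : E.Pol t p0 a) : ht (gp g1 p0 a) (algebraMap κ K t) = 2 * a := by
  rw [ht_gp]
  unfold ht
  rw [hp.ord]
  have := hp.pos
  omega

theorem lam_pol : E.lam (gp g1 p0 a) = 2 * a := by
  rw [lam_eq, gp_z]
  omega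

theorem H1_pol (hp : E.Pol t p0 a) : E.H 1 (gp g1 p0 a) = 0 := by
  have h : E.H 1 (gp g1 p0 a) = ht p0 (E.C 1) := ht_gp g1 p0 a (E.C 1)
  rw [h]
  unfold ht
  rw [hp.triv _ (IntermediateField.mem_adjoin_simple_self ℂ _) (E.C_ne 1)]
  rfl

theorem H2_pol (T : E.Trip t) (hp : E.Pol t p0 a) : E.H 2 (gp g1 p0 a) = 0 := by
  have h1 := H1_pol g1 hp
  have h2 := ht_pol g1 hp
  have h3 := E.H_nonneg 2 (gp g1 p0 a)
  have h4 := hp.pos
  by_contra hne
  have h5 := T.lt12 (gp g1 p0 a) (by omega)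
  omega

/-- the contracted curve passes through the centre of `zp` -/
theorem through_zp (T : E.Trip t) (hp : E.Pol t p0 a) :
    Through (E.ym t T.ne) (gp g1 p0 a) (zp g1) := by
  have hpos := hp.pos
  have hl := lam_pol (E := E) g1 (p0 := p0) (a := a)
  have h1 := H1_pol g1 hp
  have h2 := H2_pol g1 T hp
  have ht' := ht_pol g1 hp
  have htop : Top (E.ym t T.ne) (E.zi * (E.zi * (E.zi * 1))) (gp g1 p0 a) := by
    refine Top.mul (top_zi (by omega) (by omega)) (Top.mul
      (top_zi (by unfold H at h1; omega) (by omega)) (Top.mul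
        (top_zi (by unfold H at h2; omega) (by omega)) ?_))
    exact (gs_T3 (F := ⊥) (by omega)).top
  intro x hx
  obtain ⟨α, hα, β, hβ, hβ0, hβo, hαβ⟩ := (mem_localRing (top_zp g1 T.ne)).1 hx
  obtain ⟨p, c, hpβ, hc⟩ := nchart_poly g1 T.ne hβ
  have hp0 : p ≠ 0 := by
    rintro rfl
    rw [map_zero] at hpβ
    exact hβ0 hpβ
  have hc0 : p.coeff 0 ≠ 0 := by
    intro h0
    rw [hpβ, zp_ord g1 hp0] at hβo
    have h3 : p.natTrailingDegree = 0 := by exact_mod_cast hβo
    have h4 := (natTrailingDegree_eq_zero.1 h3).resolve_left hp0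
    exact h4 h0
  have hord : (gp g1 p0 a).ord β = 0 := by
    apply le_antisymm
    · rw [hpβ, gp_ord g1 p0 a hp0]
      have h3 := mu_le p0 a hc0
      have h4 : p0.ord (p.coeff 0) = 0 := by
        rw [hc] at hc0 ⊢
        exact p0.ord_const (by
          rintro rfl
          exact hc0 (map_zero _))
      rw [h4] at h3
      simpa using h3
    · exact (Place.reg_iff _ hβ0).1 (htop.reg β hβ)
  have hx' : x = α * β⁻¹ := by
    rw [← hαβ, mul_assoc, mul_inv_cancel₀ hβ0, mul_one]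
  rw [hx']
  exact Place.reg_mul _ (htop.reg α hα) (Or.inr (by rw [Place.ord_inv, hord]; norm_num))

end Exa

end Pool.Agent.Q73.LT
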