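import Pool.Agent.Q73.FL.Irr

/-!
The exceptional loci of the flips are irreducible: the classification of the divisors.
-/

set_option autoImplicit false

open FF Pool.Agent.W603.LV Pool.Agent.W602.GT Polynomial Pool.Agent.Q73.FL

namespace Pool.Agent.Q73.LT

namespace Exa

section

variable {κ K : Type} [Field κ] [Algebra ℂ κ] [Field K] [Algebra ℂ K] [Algebra κ K]
  (E : Exa κ K)

/-- the system `{1, C₁, C₂}` -/
noncomputable def U12 : Sys K := (E.TC 1).un (E.TC 2)

theorem L_U12 (P : Place ℂ K) : E.U12.L P = max (E.H 1 P) (E.H 2 P) := by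
  unfold U12
  rw [L_un, L_TC, L_TC]

variable {E}

theorem mem_U12 {g : K} : g ∈ E.U12.s ↔
    g = 1 ∨ g = algebraMap κ K (E.C 1) ∨ g = algebraMap κ K (E.C 2) := by
  unfold U12 TC
  rw [Sys.mem_un, mem_pen, mem_pen]
  tauto

theorem gsU_one {P : Place ℂ K} {F : IntermediateField ℂ P.RF}
    (h1 : MM P F (algebraMap κ K (E.C 1))) (h2 : MM P F (algebraMap κ K (E.C 2))) :
    GS P F E.U12 1 := by
  refine ⟨mem_U12.2 (Or.inl rfl), fun g hg => ?_⟩
  rw [div_one]
  rcases mem_U12.1 hg with rfl | rfl | rfl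
  · exact MM.one
  · exact h1
  · exact h2

theorem gsU_C1 {P : Place ℂ K} {F : IntermediateField ℂ P.RF}
    (h1 : P.ord (algebraMap κ K (E.C 1)) < 0)
    (h2 : MM P F (algebraMap κ K (E.C 2) / algebraMap κ K (E.C 1))) :
    GS P F E.U12 (algebraMap κ K (E.C 1)) := by
  have c1 := map_ne (K := K) (E.C_ne 1)
  refine ⟨mem_U12.2 (Or.inr (Or.inl rfl)), fun g hg => ?_⟩
  rcases mem_U12.1 hg with rfl | rfl | rfl
  · exact MM.pos (by rw [one_div, P.ord_inv]; omega)
  · rw [div_self c1]
    exact MM.one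
  · exact h2

theorem gsU_C2 {P : Place ℂ K} {F : IntermediateField ℂ P.RF}
    (h1 : P.ord (algebraMap κ K (E.C 2)) < 0)
    (h2 : P.ord (algebraMap κ K (E.C 2)) < P.ord (algebraMap κ K (E.C 1))) :
    GS P F E.U12 (algebraMap κ K (E.C 2)) := by
  have c1 := map_ne (K := K) (E.C_ne 1)
  have c2 := map_ne (K := K) (E.C_ne 2)
  refine ⟨mem_U12.2 (Or.inr (Or.inr rfl)), fun g hg => ?_⟩
  rcases mem_U12.1 hg with rfl | rfl | rfl
  · exact MM.pos (by rw [one_div, P.ord_inv]; omega)
  · exact MM.pos (by rw [P.ord_div c1 c2]; omega)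
  · rw [div_self c2]
    exact MM.one

/-- the auxiliary model -/
noncomputable def W0 (E : Exa κ K) (t : κ) (h : t ≠ 0) : Sys K :=
  (E.TC 1).mul ((E.TC 2).mul ((pen (algebraMap κ K t) (map_ne h)).mul E.U12))

end

variable {κ K : Type} [Field κ] [Algebra ℂ κ] [Field K] [Algebra ℂ K] [Algebra κ K]
  [IsScalarTower ℂ κ K] {E : Exa κ K} {t : κ} (g1 : Gen1 κ E.z) {p0 : Place ℂ κ} {a : ℕ}

theorem rr_map (P : Place ℂ K) (c : κ) : ∃ c' : κ, rr P (algebraMap κ K c) = algebraMap κ K c' := by
  rcases rr_cases P (algebraMap κ K c) with ⟨-, h⟩ | ⟨-, h⟩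
  · exact ⟨c, h⟩
  · exact ⟨c⁻¹, by rw [h, map_inv₀]⟩

theorem classXX (T : E.Trip t) (hp : E.Pol t p0 a) (hS : Model E.S1)
    (hn : Algebra.trdeg ℂ κ = 2) (hn3 : Algebra.trdeg ℂ K = (3 : ℕ)) {P : Place ℂ K}
    (hP : IsPrimeDivisor ((E.W0 t T.ne).mul (E.ym t T.ne)) P)
    (h1 : E.H 1 P < E.lam P) (h2 : E.H 2 P < E.lam P) : P = zp g1 ∨ P = gp g1 p0 a := by
  have hz := E.zm_model hS
  have hl : 0 < E.lam P := by
    have := E.H_nonneg 1 P
    omega
  have hoz : E.lam P = 2 * P.ord E.z := by
    have := E.lam_eq P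
    omega
  have c1 := map_ne (K := K) (E.C_ne 1)
  have c2 := map_ne (K := K) (E.C_ne 2)
  have t0 : algebraMap κ K t ≠ 0 := map_ne T.ne
  have ozi := E.zi_ord P
  by_cases htriv : ∀ c : κ, c ≠ 0 → P.ord (algebraMap κ K c) = 0
  · exact Or.inl (eq_zp g1 htriv (by omega))
  right
  push Not at htriv
  obtain ⟨s0, hs0, hs0'⟩ := htriv
  obtain ⟨u, hu⟩ := exists_ind_red (hP.divisorial (Model.mul (Model.mul hz)) hn3)
  have key : ∀ (S : Set P.RF) (f1 f2 f3 f4 f5 : K),
      GS P (IntermediateField.adjoin ℂ S) (E.TC 1) f1 →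
      GS P (IntermediateField.adjoin ℂ S) (E.TC 2) f2 →
      GS P (IntermediateField.adjoin ℂ S) (pen (algebraMap κ K t) (map_ne T.ne)) f3 →
      GS P (IntermediateField.adjoin ℂ S) E.U12 f4 →
      GS P (IntermediateField.adjoin ℂ S) (E.VV (algebraMap κ K t) (map_ne T.ne)) f5 →
      Full S := by
    intro S f1 f2 f3 f4 f5 k1 k2 k3 k4 k5
    exact full_of_gs' hP ⟨_, (k1.mul (k2.mul (k3.mul k4))).mul (k5.mul
      (GS.mul (w := (E.V 2).mul E.T3) (gs_zi h1) ((gs_zi h2).mul (gs_T3 hl))))⟩
  have hm : ∀ {S : Set P.RF} {x : P.RF}, x ∈ S → x ∈ IntermediateField.adjoin ℂ S := fun h =>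
    IntermediateField.subset_adjoin ℂ _ h
  rcases lt_or_ge (ht P (algebraMap κ K t)) (E.lam P) with h3 | h3
  · exfalso
    set S : Set P.RF := {P.red (rr P (algebraMap κ K (E.C 1))),
      P.red (rr P (algebraMap κ K (E.C 2))), P.red (rr P (algebraMap κ K t)),
      P.red (rr P (algebraMap κ K (E.C 2 / E.C 1)))} with hSdef
    obtain ⟨f1, k1, -, -⟩ := GS.of_rr (F := IntermediateField.adjoin ℂ S) c1 (hm (by simp [hSdef]))
    obtain ⟨f2, k2, -, -⟩ := GS.of_rr (F := IntermediateField.adjoin ℂ S) c2 (hm (by simp [hSdef]))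
    obtain ⟨f3, k3, -, -⟩ := GS.of_rr (F := IntermediateField.adjoin ℂ S) t0 (hm (by simp [hSdef]))
    have k4 : ∃ f4, GS P (IntermediateField.adjoin ℂ S) E.U12 f4 := by
      by_cases hc : 0 ≤ P.ord (algebraMap κ K (E.C 1)) ∧ 0 ≤ P.ord (algebraMap κ K (E.C 2))
      · refine ⟨1, gsU_one ⟨Or.inr hc.1, ?_⟩ ⟨Or.inr hc.2, ?_⟩⟩
        · rcases rr_cases P (algebraMap κ K (E.C 1)) with ⟨-, h4⟩ | ⟨h4, -⟩
          · rw [← h4]
            exact hm (by simp [hSdef])
          · omega
        · rcases rr_cases P (algebraMap κ K (E.C 2)) with ⟨-, h4⟩ | ⟨h4, -⟩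
          · rw [← h4]
            exact hm (by simp [hSdef])
          · omega
      · by_cases hc' : P.ord (algebraMap κ K (E.C 2)) < P.ord (algebraMap κ K (E.C 1))
        · exact ⟨_, gsU_C2 (by omega) hc'⟩
        · have h5 : 0 ≤ P.ord (algebraMap κ K (E.C 2 / E.C 1)) := by
            rw [map_div₀, P.ord_div c2 c1]
            omega
          refine ⟨_, gsU_C1 (by omega) ⟨?_, ?_⟩⟩
          · rw [← map_div₀]
            exact Or.inr h5
          · rcases rr_cases P (algebraMap κ K (E.C 2 / E.C 1)) with ⟨-, h4⟩ | ⟨h4, -⟩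
            · rw [← map_div₀, ← h4]
              exact hm (by simp [hSdef])
            · omega
    obtain ⟨f4, k4⟩ := k4
    have hF := key S f1 f2 f3 f4 _ k1 k2 k3 k4 (gs_zi h3)
    refine not_full_of_dep hu ?_ hF
    have hSm : ∀ x ∈ S, ∃ c : κ, P.Reg (algebraMap κ K c) ∧ x = P.red (algebraMap κ K c) := by
      have h5 : ∀ c : κ, ∃ c' : κ, P.Reg (algebraMap κ K c') ∧
          P.red (rr P (algebraMap κ K c)) = P.red (algebraMap κ K c') := by
        intro c
        obtain ⟨c', hc'⟩ := rr_map P c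
        refine ⟨c', ?_, by rw [hc']⟩
        rw [← hc']
        exact rr_reg P _
      rintro x (rfl | rfl | rfl | rfl)
      · exact h5 _
      · exact h5 _
      · exact h5 _
      · exact h5 _
    intro x hx x' hx' hind
    obtain ⟨c, hc, rfl⟩ := hSm x hx
    obtain ⟨c', hc', rfl⟩ := hSm x' hx'
    exact (ind_pair.1 hind).2 (red_mem hn hs0 hs0' hc (ind_pair.1 hind).1 c' hc')
  · have ht0 : 0 < ht P (algebraMap κ K t) := by omega
    have h12 : E.H 1 P = E.H 2 P := by
      rcases lt_trichotomy (E.H 1 P) (E.H 2 P) with h | h | h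
      · have := T.lt12 P h
        omega
      · exact h
      · have := T.lt21 P h
        omega
    have hot := ord_of_ht ht0
    have hred := T.red P h12 (by omega)
    have k3 : ∀ F : IntermediateField ℂ P.RF,
        GS P F (pen (algebraMap κ K t) (map_ne T.ne)) (algebraMap κ K t) := fun F =>
      GS.pen_self _ (MM.pos (by rw [P.ord_inv]; omega))
    have k5 : ∀ S : Set P.RF, P.red (E.zi / algebraMap κ K t) ∈ S →
        GS P (IntermediateField.adjoin ℂ S) (E.VV (algebraMap κ K t) (map_ne T.ne))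
          (algebraMap κ K t) := fun S hS' => gs_t h3 ht0 (hm hS')
    rcases (E.H_nonneg 1 P).lt_or_eq with hμ | hμ
    · exfalso
      have o1 : P.ord (algebraMap κ K (E.C 1)) = - E.H 1 P := ord_of_ht hμ
      have o2 : P.ord (algebraMap κ K (E.C 2)) = - E.H 2 P := ord_of_ht (by
        have : 0 < E.H 2 P := by omega
        exact this)
      have hr : MM P (IntermediateField.adjoin ℂ {P.red (E.zi / algebraMap κ K t)})
          (algebraMap κ K (E.C 2) / algebraMap κ K (E.C 1)) := by
        have h5 : P.Reg (algebraMap κ K (E.C 2) / algebraMap κ K (E.C 1)) :=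
          Or.inr (by rw [P.ord_div c2 c1]; omega)
        refine ⟨h5, ?_⟩
        have h6 : P.red (algebraMap κ K (E.C 2) / algebraMap κ K (E.C 1)) = 1 := by
          rw [← sub_eq_zero, ← P.red_one, ← P.red_sub h5 P.reg_one, P.red_eq_zero_iff (by
            rw [sub_eq_add_neg]
            exact P.reg_add h5 (P.reg_neg P.reg_one))]
          have h7 : algebraMap κ K (E.C 2) / algebraMap κ K (E.C 1) - 1 =
              -(1 / algebraMap κ K (E.C 1)) *
                (algebraMap κ K (E.C 1) - algebraMap κ K (E.C 2)) := by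
            field_simp
            ring
          rw [h7]
          have h8 : Ge P (E.H 1 P) (-(1 / algebraMap κ K (E.C 1))) := by
            right
            rw [P.ord_neg, one_div, P.ord_inv]
            omega
          rcases h8.mul hred with h9 | h9
          · exact Or.inl h9
          · right
            omega
        rw [h6]
        exact one_mem _
      exact not_full_one hu _ (key {P.red (E.zi / algebraMap κ K t)} _ _ _ _ _
        (GS.pen_self c1 (MM.pos (by rw [P.ord_inv]; omega)))
        (GS.pen_self c2 (MM.pos (by rw [P.ord_inv]; omega))) (k3 _)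
        (gsU_C1 (by omega) hr) (k5 _ rfl))
    · have r1 : P.Reg (algebraMap κ K (E.C 1)) := by
        right
        unfold H ht at hμ
        omega
      have r2 : P.Reg (algebraMap κ K (E.C 2)) := by
        right
        unfold H ht at hμ h12
        omega
      have hr12 : P.red (algebraMap κ K (E.C 1)) = P.red (algebraMap κ K (E.C 2)) := by
        rw [← sub_eq_zero, ← P.red_sub r1 r2, P.red_eq_zero_iff (by
          rw [sub_eq_add_neg]
          exact P.reg_add r1 (P.reg_neg r2))]
        rcases hred with h | h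
        · exact Or.inl h
        · right
          omega
      have hF := key {P.red (algebraMap κ K (E.C 1)), P.red (E.zi / algebraMap κ K t)} _ _ _ _ _
        (GS.pen_one c1 ⟨r1, hm (by simp)⟩) (GS.pen_one c2 ⟨r2, by rw [← hr12]; exact hm (by simp)⟩)
        (k3 _) (gsU_one ⟨r1, hm (by simp)⟩ ⟨r2, by rw [← hr12]; exact hm (by simp)⟩)
        (k5 _ (by simp))
      have hind := full_pair hu hF
      obtain ⟨-, n2⟩ := ind_ne_zero hind
      have hlt : ht P (algebraMap κ K t) = E.lam P := by
        by_contra hne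
        apply n2
        have h5 : 0 < P.ord (E.zi / algebraMap κ K t) := by
          rw [P.ord_div E.zi_ne t0]
          omega
        exact (P.red_eq_zero_iff (Or.inr h5.le)).2 (Or.inr h5)
      have hut : Transcendental ℂ (P.red (algebraMap κ K (E.C 1))) := (ind_pair.1 hind).1
      obtain ⟨e, w, ov⟩ := exists_over (K := κ) P ⟨s0, hs0'⟩
      have he : (0 : ℤ) < e := by exact_mod_cast ov.1
      have hκF := fun c hc => red_mem hn hs0 hs0' r1 hut c hc
      -- the restriction is the distinguished place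
      have hwC : Triv w (IntermediateField.adjoin ℂ {E.C 1}) := by
        refine triv_adjoin ?_
        intro f hf hf0
        have h6 : w.ord f = 0 ∨ True := Or.inr trivial
        obtain ⟨q, rfl⟩ : ∃ q : ℂ[X], aeval (E.C 1) q = f := by
          rw [Algebra.adjoin_singleton_eq_range_aeval] at hf
          exact hf
        have hq0 : q ≠ 0 := by
          rintro rfl
          exact hf0 (map_zero _)
        have h7 : P.red (aeval (algebraMap κ K (E.C 1)) q) =
            aeval (P.red (algebraMap κ K (E.C 1))) q ∧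
              P.Reg (aeval (algebraMap κ K (E.C 1)) q) := by
          have h8 := red_aeval (P := P) (r := 1) (s := fun _ => algebraMap κ K (E.C 1))
            (fun _ => r1) (Polynomial.aeval (MvPolynomial.X 0) q)
          have h9 : ∀ {L : Type} [Field L] [Algebra ℂ L] (x : L),
              MvPolynomial.aeval (fun _ : Fin 1 => x)
                (Polynomial.aeval (MvPolynomial.X 0 : MvPolynomial (Fin 1) ℂ) q) =
                aeval x q := by
            intro L _ _ x
            rw [← Polynomial.aeval_algHom_apply, MvPolynomial.aeval_X]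
          rw [h9, h9] at h8
          exact ⟨h8.2, h8.1⟩
        have h8 : aeval (P.red (algebraMap κ K (E.C 1))) q ≠ 0 := fun h => hut ⟨q, hq0, h⟩
        rw [← h7.1, Ne, P.red_eq_zero_iff h7.2] at h8
        push Not at h8
        have h9 : aeval (algebraMap κ K (E.C 1)) q = algebraMap κ K (aeval (E.C 1) q) :=
          aeval_algebraMap_apply K (E.C 1) q
        have h10 := le_antisymm h8.2 ((P.reg_iff h8.1).1 h7.2)
        rw [h9, ov.2] at h10
        rcases mul_eq_zero.1 h10 with h11 | h11
        · omega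
        · exact h11
      have hwt : w.ord t < 0 := by
        rw [ov.2] at hot
        by_contra hcon
        push Not at hcon
        have := mul_nonneg he.le hcon
        omega
      have hw := hp.uniq w hwC hwt
      subst hw
      -- an element of order `-a`
      obtain ⟨π, hπ0, hπ⟩ := w.surj
      have hb0 : (π⁻¹) ^ a ≠ 0 := pow_ne_zero _ (inv_ne_zero hπ0)
      have hba : w.ord ((π⁻¹) ^ a) = -(a : ℤ) := by
        rw [w.ord_pow, w.ord_inv, hπ]
        ring
      have hb' := map_ne (K := K) hb0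
      have hz1 : P.ord E.z = e * a := by
        rw [ov.2, hp.ord] at hot
        have : 2 * P.ord E.z = 2 * (e * a) := by
          rw [← hoz, ← hlt]
          linarith
        linarith
      have hbz : P.ord (algebraMap κ K ((π⁻¹) ^ a) * E.z) = 0 := by
        rw [P.ord_mul hb' E.z_ne, ov.2, hba, hz1]
        ring
      refine eq_gp g1 ov hb0 hba hbz hκF ?_
      intro hcon
      apply (ind_pair.1 hind).2
      have hcon' := acl_acl (mem_acl.1 hcon)
      have hbt : P.ord (algebraMap κ K (((π⁻¹) ^ a) ^ 2 / t)) = 0 := by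
        rw [ov.2, w.ord_div (pow_ne_zero _ hb0) T.ne, w.ord_pow, hba, hp.ord]
        push_cast
        ring
      have hbtm := hκF _ (Or.inr hbt.ge)
      have hbn : P.red (algebraMap κ K ((π⁻¹) ^ a) * E.z) ≠ 0 :=
        P.red_ne_zero (mul_ne_zero hb' E.z_ne) hbz
      have hid : E.zi / algebraMap κ K t * (algebraMap κ K ((π⁻¹) ^ a) * E.z) ^ 2 =
          algebraMap κ K (((π⁻¹) ^ a) ^ 2 / t) := by
        unfold zi
        rw [map_div₀, map_pow _ (π⁻¹ ^ a) 2]
        generalize algebraMap κ K (π⁻¹ ^ a) = bb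
        have := E.z_ne
        field_simp
      have hr0 : P.Reg (E.zi / algebraMap κ K t) := by
        right
        rw [P.ord_div E.zi_ne t0]
        omega
      have h5 : P.red (E.zi / algebraMap κ K t) *
          P.red (algebraMap κ K ((π⁻¹) ^ a) * E.z) ^ 2 =
            P.red (algebraMap κ K (((π⁻¹) ^ a) ^ 2 / t)) := by
        rw [← P.red_pow (Or.inr hbz.ge), ← P.red_mul hr0 (reg_pow' (Or.inr hbz.ge) 2), hid]
      have h6 : P.red (E.zi / algebraMap κ K t) =
          P.red (algebraMap κ K (((π⁻¹) ^ a) ^ 2 / t)) /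
            P.red (algebraMap κ K ((π⁻¹) ^ a) * E.z) ^ 2 := by
        rw [eq_div_iff (pow_ne_zero _ hbn), h5]
      rw [h6]
      exact div_mem hbtm (pow_mem hcon' 2)

/-- **The exceptional locus is irreducible.** -/
theorem irr (T : E.Trip t) (hp : E.Pol t p0 a) (hS : Model E.S1)
    (hn : Algebra.trdeg ℂ κ = 2) (hn3 : Algebra.trdeg ℂ K = (3 : ℕ)) (g1 : Gen1 κ E.z) :
    IrrExc (E.ym t T.ne) E.zm := by
  have hz := E.zm_model hS
  have c1 := map_ne (K := K) (E.C_ne 1)
  have c2 := map_ne (K := K) (E.C_ne 2)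
  have t0 : algebraMap κ K t ≠ 0 := map_ne T.ne
  have hi := E.zi_ne
  refine ⟨gp g1 p0 a, ?_, ?_⟩
  · -- the centre of the place is in the exceptional locus
    have hpos := hp.pos
    have hl := lam_pol (E := E) g1 (p0 := p0) (a := a)
    have h1 := H1_pol g1 hp
    have h2 := H2_pol g1 T hp
    have ht' := ht_pol g1 hp
    intro heq
    have hm : algebraMap κ K t / E.zi ∈ localRing (E.ym t T.ne) (gp g1 p0 a) :=
      fac_left (top_zi (by omega) (by omega)) E.t_VV
    rw [heq] at hm
    have hgs : GS (gp g1 p0 a) ⊥ E.zm (E.zi * (E.zi * 1)) := by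
      refine GS.mul (gs_zi (by unfold H at h1; omega)) (GS.mul
        (gs_zi (by unfold H at h2; omega)) (gs_T3 (by omega)))
    obtain ⟨c, hc⟩ := const_of_bot hgs.top (fun g hg => by
      obtain ⟨c, hc⟩ := IntermediateField.mem_bot.1 (hgs.2 g hg).2
      exact ⟨c, hc.symm⟩) hm
    have hreg := localRing_reg hm
    have h3 : (gp g1 p0 a).red (algebraMap κ K t / E.zi - algebraMap ℂ K c) = 0 := by
      rw [Place.red_sub _ hreg (Place.reg_const _ c), hc, Place.algebraMap_RF, sub_self]
    have h4 : algebraMap κ K t / E.zi - algebraMap ℂ K c =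
        aeval E.z (C t * X ^ 2 - C (algebraMap ℂ κ c)) := by
      rw [map_sub, map_mul, map_pow, aeval_X, aeval_C, aeval_C, ← IsScalarTower.algebraMap_apply]
      unfold zi
      have := E.z_ne
      field_simp
    have hcoef : (C t * X ^ 2 - C (algebraMap ℂ κ c)).coeff 2 = t := by
      rw [coeff_sub, coeff_C_mul, coeff_X_pow, coeff_C]
      simp
    have hne : (C t * X ^ 2 - C (algebraMap ℂ κ c) : κ[X]) ≠ 0 := by
      intro h0
      rw [h0, coeff_zero] at hcoef
      exact T.ne hcoef.symm
    rw [Place.red_eq_zero_iff _ (by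
      rw [sub_eq_add_neg]
      exact Place.reg_add _ hreg (Place.reg_neg _ (Place.reg_const _ c))), h4,
      gp_ord g1 p0 a hne] at h3
    rcases h3 with h3 | h3
    · exact g1.ne hne h3
    · have h5 := mu_le p0 a (p := C t * X ^ 2 - C (algebraMap ℂ κ c)) (i := 2) (by
        rw [hcoef]
        exact T.ne)
      rw [hcoef, hp.ord] at h5
      push_cast at h5
      omega
  · intro Q hQ
    have hQ' : E.H 1 Q < E.lam Q ∧ E.H 2 Q < E.lam Q := by
      by_contra hcon
      exact hQ (loc_eq_of T hS hn3 hcon)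
    obtain ⟨h1, h2⟩ := hQ'
    have hl : 0 < E.lam Q := by
      have := E.H_nonneg 1 Q
      omega
    have hXX : Model ((E.W0 t T.ne).mul (E.ym t T.ne)) := Model.mul (Model.mul hz)
    obtain ⟨g, hg⟩ := exists_top E.U12 Q
    have hg0 := E.U12.ne_zero hg.1
    have hgL := hg.L
    rw [L_U12] at hgL
    have ozi := E.zi_ord Q
    have hle := E.lam_eq Q
    obtain ⟨P, hP, hPQ, hPa⟩ := exists_divisor hXX (Q := Q) (a := g / E.zi) (div_ne_zero hg0 hi) (by
      rw [Q.ord_div hg0 hi]
      omega)
    -- the same elements are dominant at `P`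
    have hmU : ∀ g' ∈ E.U12.s, g' / g ∈ localRing ((E.W0 t T.ne).mul (E.ym t T.ne)) Q := by
      intro g' hg'
      rw [Sys.mul_comm']
      exact dom_mul _ _ _ (dom_mul _ _ _ (dom_mul _ _ _ (dom_mul _ _ _
        (nchart_localRing hg (gen_mem hg')))))
    have hgP : Top E.U12 g P := ⟨hg.1, fun g' hg' => hPQ _ (hmU g' hg')⟩
    have hgPL := hgP.L
    rw [L_U12] at hgPL
    have tp1 : Top (E.V 1) E.zi Q := top_zi h1.le hl
    have hm1 : 1 / E.zi ∈ localRing ((E.W0 t T.ne).mul (E.ym t T.ne)) Q :=
      dom_mul _ _ _ (dom_mul _ _ _ (E.fac1 tp1 E.one_VV))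
    have hzP := (P.reg_iff (div_ne_zero one_ne_zero hi)).1 (hPQ _ hm1)
    rw [one_div, P.ord_inv, zi_ord] at hzP
    have hlP := E.lam_eq P
    rw [P.ord_div hg0 hi, zi_ord] at hPa
    have hcl := classXX g1 T hp hS hn hn3 hP (by omega) (by omega)
    have hthr : Through (E.ym t T.ne) P Q := fun x hx => hPQ x (dom_mul _ _ _ hx)
    rcases hcl with h | h
    · subst h
      intro x hx
      exact through_zp g1 T hp x (through_sub hthr hx)
    · rw [← h]
      exact hthr

end Exa

end Pool.Agent.Q73.LT
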