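import Pool.Agent.Q73.FL.Dv

/-!
The prime divisors of the models of the sequence are prime divisors on the initial model.
-/

set_option autoImplicit false

open FF Real Pool.Agent.W603.LV Pool.Agent.W602.GT Pool.Agent.Q73.FL

namespace Pool.Agent.Q73.LT

section

variable {K : Type} [Field K] [Algebra ℂ K] {y : Sys K} {P : Place ℂ K}

theorem LB.of_top {w : Sys K} (h : LB y w P) {f : K} (hf : Top w f P) {g : K} (hg : g ∈ w.s) :
    g / f ∈ localRing y P := by
  obtain ⟨f0, hf0, h0⟩ := h.top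
  have n0 := w.ne_zero hf0.1
  have n1 := w.ne_zero hf.1
  have h1 := h0 f hf.1
  have h2 : P.ord (f / f0) = 0 := by
    rw [P.ord_div n1 n0]
    have := hf.L
    have := hf0.L
    omega
  have h3 := localRing_mul (h0 g hg) (localRing_inv h1 (div_ne_zero n1 n0) h2)
  have h4 : g / f0 * (f / f0)⁻¹ = g / f := by field_simp
  rwa [h4] at h3

theorem LB.mul {w v : Sys K} (h : LB y w P) (h' : LB y v P) : LB y (w.mul v) P := by
  obtain ⟨f, hf, hg⟩ := h
  obtain ⟨f', hf', hg'⟩ := h'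
  refine ⟨f * f', Sys.mem_mul hf hf', fun g hgg => ?_⟩
  obtain ⟨a, ha, b, hb, rfl⟩ := Sys.of_mem_mul hgg
  have h1 : a * b / (f * f') = (a / f) * (b / f') := by
    have := w.ne_zero hf
    have := v.ne_zero hf'
    field_simp
  rw [h1]
  exact localRing_mul (hg a ha) (hg' b hb)

theorem LB.pen_mem {f : K} {hf : f ≠ 0} (h : LB y (pen f hf) P) (h0 : 0 ≤ P.ord f) :
    f ∈ localRing y P := by
  have ht : Top (pen f hf) 1 P := by
    rw [top_iff ((mem_pen hf).2 (Or.inl rfl)), L_pen, P.ord_one]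
    omega
  have := h.of_top ht ((mem_pen hf).2 (Or.inr rfl))
  rwa [div_one] at this

theorem LB.pen_inv {f : K} {hf : f ≠ 0} (h : LB y (pen f hf) P) (h0 : P.ord f ≤ 0) :
    f⁻¹ ∈ localRing y P := by
  have ht : Top (pen f hf) f P := by
    rw [top_iff ((mem_pen hf).2 (Or.inr rfl)), L_pen]
    omega
  have := h.of_top ht ((mem_pen hf).2 (Or.inl rfl))
  rwa [one_div] at this

end

namespace Exa

variable {κ K : Type} [Field κ] [Algebra ℂ κ] [Field K] [Algebra ℂ K] [Algebra κ K]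
  {E : Exa κ K} {P : Place ℂ K}

theorem lbV (i : ℕ) (hC : LB E.Y (E.TC i) P) (h3 : LB E.Y E.T3 P)
    (h : E.lam P = 0 ∨ (P.ord (algebraMap κ K (E.C i)) < 0 ∧
      E.zi / algebraMap κ K (E.C i) ∈ localRing E.Y P)) : LB E.Y (E.V i) P := by
  have c0 := map_ne (K := K) (E.C_ne i)
  have ho : ∀ g, g ∈ (E.V i).s ↔ g = 1 ∨ g = algebraMap κ K (E.C i) ∨ g = E.zi :=
    fun g => mem_VV E
  rcases h with h | h
  · have hz : E.z⁻¹ ∈ localRing E.Y P := by
      have := E.lam_eq P
      exact LB.pen_inv h3 (by omega)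
    have hzi : E.zi ∈ localRing E.Y P := by
      unfold zi
      rw [pow_two]
      exact localRing_mul hz hz
    rcases le_or_gt 0 (P.ord (algebraMap κ K (E.C i))) with h1 | h1
    · refine ⟨1, (ho _).2 (Or.inl rfl), fun g hg => ?_⟩
      rw [div_one]
      rcases (ho g).1 hg with rfl | rfl | rfl
      · exact localRing_one P
      · exact LB.pen_mem hC h1
      · exact hzi
    · refine ⟨_, (ho _).2 (Or.inr (Or.inl rfl)), fun g hg => ?_⟩
      have h2 := LB.pen_inv hC h1.le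
      rcases (ho g).1 hg with rfl | rfl | rfl
      · rw [one_div]
        exact h2
      · rw [div_self c0]
        exact localRing_one P
      · rw [div_eq_mul_inv]
        exact localRing_mul hzi h2
  · refine ⟨_, (ho _).2 (Or.inr (Or.inl rfl)), fun g hg => ?_⟩
    rcases (ho g).1 hg with rfl | rfl | rfl
    · rw [one_div]
      exact LB.pen_inv hC h.1.le
    · rw [div_self c0]
      exact localRing_one P
    · exact h.2

theorem sq_div {y : K} (hy : y ≠ 0) {c : K} (hc0 : c ≠ 0) (hc : c = y ^ 2 - 1)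
    (h1 : c⁻¹ ∈ localRing E.Y P) (h2 : E.z⁻¹ / y ∈ localRing E.Y P) :
    E.zi / c ∈ localRing E.Y P := by
  have h3 : E.zi / c = (E.z⁻¹ / y) * (E.z⁻¹ / y) * (1 + c⁻¹) := by
    unfold zi
    have h4 : (1 + c⁻¹) = y ^ 2 / c := by
      field_simp
      rw [hc]
      ring
    rw [h4]
    field_simp
  rw [h3]
  exact localRing_mul (localRing_mul h2 h2) (localRing_add (localRing_one P) h1)

theorem lb_Y (hy : Model E.Y) (h : E.lam P = 0 ∨ (0 < E.lam P ∧ E.H 1 P = E.lam P ∧
    E.H 2 P = E.lam P)) : LB E.Y E.zm P := by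
  have b1 : LB E.Y (E.TC 1) P := (E.cof_C 1).bpf hy P
  have b2 : LB E.Y (E.TC 2) P := (E.cof_C 2).bpf hy P
  have b3 : LB E.Y E.T3 P := E.cof_T3.bpf hy P
  have bW : LB E.Y E.W P := E.cof_W.bpf hy P
  have y1 := map_ne (K := K) E.y1_ne
  have y2 := map_ne (K := K) E.y2_ne
  have c1 := map_ne (K := K) (E.C_ne 1)
  have c2 := map_ne (K := K) (E.C_ne 2)
  refine LB.mul (lbV 1 b1 b3 ?_) (LB.mul (lbV 2 b2 b3 ?_) b3)
  · rcases h with h | ⟨h0, h1, h2⟩
    · exact Or.inl h
    right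
    have o1 : P.ord (algebraMap κ K (E.C 1)) = - E.H 1 P := ord_of_ht (by
      have : 0 < E.H 1 P := by omega
      exact this)
    refine ⟨by omega, sq_div y1 c1 (by rw [E.C_one, map_sub, map_pow, map_one])
      (LB.pen_inv b1 (by omega)) ?_⟩
    have e1 := E.H_one P
    have e2 := E.H_two P
    have e3 : E.lam P = 2 * E.lz P := rfl
    have p1 : P.ord (algebraMap κ K E.y1) = - E.l1 P := ord_of_ht (by
      have : 0 < E.l1 P := by omega
      exact this)
    have p2 : P.ord (algebraMap κ K E.y2) = - E.l2 P := ord_of_ht (by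
      have : 0 < E.l2 P := by omega
      exact this)
    have hW1 : algebraMap κ K E.y1 * algebraMap κ K E.y2 ∈ E.W.s :=
      Sys.mem_un.2 (Or.inl (Sys.mem_mul E.y1_T1 E.y2_T2))
    have hW2 : algebraMap κ K E.y2 * E.z⁻¹ ∈ E.W.s :=
      Sys.mem_un.2 (Or.inr (Sys.mem_un.2 (Or.inr (Sys.mem_mul E.y2_T2
        ((mem_pen _).2 (Or.inr rfl))))))
    have ht : Top E.W (algebraMap κ K E.y1 * algebraMap κ K E.y2) P := by
      rw [top_iff hW1, L_W, P.ord_mul y1 y2]
      omega
    have h4 := bW.of_top ht hW2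
    have h5 : algebraMap κ K E.y2 * E.z⁻¹ / (algebraMap κ K E.y1 * algebraMap κ K E.y2) =
        E.z⁻¹ / algebraMap κ K E.y1 := by field_simp
    rwa [h5] at h4
  · rcases h with h | ⟨h0, h1, h2⟩
    · exact Or.inl h
    right
    have o2 : P.ord (algebraMap κ K (E.C 2)) = - E.H 2 P := ord_of_ht (by
      have : 0 < E.H 2 P := by omega
      exact this)
    refine ⟨by omega, sq_div y2 c2 (by rw [E.C_two, map_sub, map_pow, map_one])
      (LB.pen_inv b2 (by omega)) ?_⟩
    have e1 := E.H_one P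
    have e2 := E.H_two P
    have e3 : E.lam P = 2 * E.lz P := rfl
    have p1 : P.ord (algebraMap κ K E.y1) = - E.l1 P := ord_of_ht (by
      have : 0 < E.l1 P := by omega
      exact this)
    have p2 : P.ord (algebraMap κ K E.y2) = - E.l2 P := ord_of_ht (by
      have : 0 < E.l2 P := by omega
      exact this)
    have hW1 : algebraMap κ K E.y1 * algebraMap κ K E.y2 ∈ E.W.s :=
      Sys.mem_un.2 (Or.inl (Sys.mem_mul E.y1_T1 E.y2_T2))
    have hW2 : algebraMap κ K E.y1 * E.z⁻¹ ∈ E.W.s :=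
      Sys.mem_un.2 (Or.inr (Sys.mem_un.2 (Or.inl (Sys.mem_mul E.y1_T1
        ((mem_pen _).2 (Or.inr rfl))))))
    have ht : Top E.W (algebraMap κ K E.y1 * algebraMap κ K E.y2) P := by
      rw [top_iff hW1, L_W, P.ord_mul y1 y2]
      omega
    have h4 := bW.of_top ht hW2
    have h5 : algebraMap κ K E.y1 * E.z⁻¹ / (algebraMap κ K E.y1 * algebraMap κ K E.y2) =
        E.z⁻¹ / algebraMap κ K E.y2 := by field_simp
    rwa [h5] at h4

/-- the prime divisors -/
theorem pd_Y (hy : Model E.Y) (hz : Model E.zm) (hn3 : Algebra.trdeg ℂ K = (3 : ℕ))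
    (hP : IsPrimeDivisor E.zm P) : IsPrimeDivisor E.Y P := by
  have h : E.lam P = 0 ∨ (0 < E.lam P ∧ E.H 1 P = E.lam P ∧ E.H 2 P = E.lam P) := by
    rcases (E.lam_nonneg P).lt_or_eq with h | h
    · obtain ⟨h1, h2, -⟩ := class_zm E.trip_zero hP (hP.divisorial hz hn3) h
      exact Or.inr ⟨h, h1, h2⟩
    · exact Or.inl h.symm
  intro x hx
  rw [← loc_eq hy (lb_Y hy h), Sys.mul_comm']
  exact dom_mul _ _ _ (hP x hx)

section

variable [IsScalarTower ℂ κ K] [Algebra.EssFiniteType ℂ K] [Algebra.EssFiniteType ℂ κ]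
    (hn : Algebra.trdeg ℂ κ = 2) (hn3 : Algebra.trdeg ℂ K = (3 : ℕ)) (g1 : Gen1 κ E.z)
    (hg : E.Gen)

include hn hn3 g1 hg

theorem pd_zero (n : ℕ) (P : Place ℂ K) : IsPrimeDivisor (E.ys n) P ↔ IsPrimeDivisor E.zm P := by
  induction n with
  | zero => exact (E.sc_left hn hn3 g1 hg 0).small P
  | succ n ih =>
    rw [← ih, (E.sc_right hn hn3 g1 hg n).small P, (E.sc_left hn hn3 g1 hg n).small P]

theorem H_pd (n : ℕ) {P : Place ℂ K} (hP : IsPrimeDivisor (E.ys n) P) :
    (E.V n).L P = E.H n P ∧ (E.V (n + 1)).L P = E.H (n + 1) P ∧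
      (E.V (n + 2)).L P = E.H (n + 2) P := by
  have hsc := E.sc_left hn hn3 g1 hg n
  have hP' := (hsc.small P).1 hP
  have a0 := E.H_nonneg n P
  have a1 := E.H_nonneg (n + 1) P
  have a2 := E.H_nonneg (n + 2) P
  rw [L_V, L_V, L_V]
  rcases (E.lam_nonneg P).lt_or_eq with h | h
  · have hd := hP'.divisorial hsc.model' hn3
    rw [← it_zm] at hP'
    obtain ⟨h1, h2, h3⟩ := class_zm (E.it n).trip_zero hP' hd (by rw [it_lam]; exact h)
    have h3' : (E.it n).H 0 P = (E.it n).lam P := h3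
    rw [it_H, it_lam] at h1 h2 h3'
    rw [Nat.add_zero] at h3'
    omega
  · omega

theorem Dn_pd (n : ℕ) {P : Place ℂ K} (hP : IsPrimeDivisor (E.ys n) P) :
    E.Dn n P = 1 / 50 * E.N P := by
  obtain ⟨h0, h1, h2⟩ := H_pd hn hn3 g1 hg n hP
  unfold Dn DD
  rw [h0, h1, h2, E.N_Rn n P]
  unfold Comb
  ring

end

end Exa

end Pool.Agent.Q73.LT
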