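import Pool.Agent.Q73.FL.Tri
import Pool.Agent.Q73.FL.Defs

/-!
Local rings of the models of products of linear systems.
-/

set_option autoImplicit false

open FF Pool.Agent.W603.LV

namespace Pool.Agent.Q73.LT

section

variable {K : Type} [Field K] [Algebra ℂ K]

theorem Sys.ext_s {z w : Sys K} (h : z.s = w.s) : z = w := by
  cases z
  cases w
  simp only at h
  subst h
  rfl

theorem Sys.mul_comm' (z w : Sys K) : z.mul w = w.mul z := by
  apply Sys.ext_s
  ext h
  constructor
  · intro hh
    obtain ⟨f, hf, g, hg, rfl⟩ := Sys.of_mem_mul hh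
    rw [mul_comm]
    exact Sys.mem_mul hg hf
  · intro hh
    obtain ⟨f, hf, g, hg, rfl⟩ := Sys.of_mem_mul hh
    rw [mul_comm]
    exact Sys.mem_mul hg hf

theorem Sys.mul_assoc' (z w v : Sys K) : (z.mul w).mul v = z.mul (w.mul v) := by
  apply Sys.ext_s
  ext h
  constructor
  · intro hh
    obtain ⟨f, hf, g, hg, rfl⟩ := Sys.of_mem_mul hh
    obtain ⟨f1, hf1, f2, hf2, rfl⟩ := Sys.of_mem_mul hf
    rw [mul_assoc]
    exact Sys.mem_mul hf1 (Sys.mem_mul hf2 hg)
  · intro hh
    obtain ⟨f, hf, g, hg, rfl⟩ := Sys.of_mem_mul hh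
    obtain ⟨f1, hf1, f2, hf2, rfl⟩ := Sys.of_mem_mul hg
    rw [← mul_assoc]
    exact Sys.mem_mul (Sys.mem_mul hf hf1) hf2

theorem Sys.mul_left_comm' (z w v : Sys K) : z.mul (w.mul v) = w.mul (z.mul v) := by
  rw [← Sys.mul_assoc', Sys.mul_comm' z w, Sys.mul_assoc']

theorem Top.mul {z w : Sys K} {f g : K} {P : Place ℂ K} (h : Top z f P) (h' : Top w g P) :
    Top (z.mul w) (f * g) P := by
  rw [top_iff (Sys.mem_mul h.1 h'.1), L_mul, h.L, h'.L,
    P.ord_mul (z.ne_zero h.1) (w.ne_zero h'.1)]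
  ring

theorem localRing_mono {y y' : Sys K} (hs : y.s ⊆ y'.s) {f : K} {P : Place ℂ K} (hf : Top y f P)
    (hf' : Top y' f P) : localRing y P ⊆ localRing y' P := by
  have hc : chart y f ≤ chart y' f := by
    apply Algebra.adjoin_mono
    rintro h ⟨g, hg, rfl⟩
    exact ⟨g, hs hg, rfl⟩
  have hn : ∀ x ∈ nchart y f, x ∈ nchart y' f := by
    intro x hx
    rw [mem_nchart] at hx ⊢
    obtain ⟨p, hp, hpx⟩ := hx
    refine ⟨p.map (Subalgebra.inclusion hc).toRingHom, hp.map _, ?_⟩
    rw [Polynomial.eval₂_map]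
    exact hpx
  intro x hx
  obtain ⟨a, ha, b, hb, hb0, hbo, hab⟩ := (mem_localRing hf).1 hx
  exact (mem_localRing hf').2 ⟨a, hn a ha, b, hn b hb, hb0, hbo, hab⟩

/-- the model of a product dominates the models of the factors -/
theorem dom_mul (w z : Sys K) (P : Place ℂ K) : localRing z P ⊆ localRing (w.mul z) P := by
  obtain ⟨f, hf⟩ := exists_top z P
  obtain ⟨fw, hfw⟩ := exists_top w P
  have hc : chart z f ≤ chart (w.mul z) (fw * f) := by
    rw [chart, Algebra.adjoin_le_iff]
    rintro h ⟨g, hg, rfl⟩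
    have h1 : g / f = (fw * g) / (fw * f) := by
      have := w.ne_zero hfw.1
      field_simp
    rw [h1]
    exact gen_mem_chart (Sys.mem_mul hfw.1 hg)
  have hn : ∀ x ∈ nchart z f, x ∈ nchart (w.mul z) (fw * f) := by
    intro x hx
    rw [mem_nchart] at hx ⊢
    obtain ⟨p, hp, hpx⟩ := hx
    refine ⟨p.map (Subalgebra.inclusion hc).toRingHom, hp.map _, ?_⟩
    rw [Polynomial.eval₂_map]
    exact hpx
  intro x hx
  obtain ⟨a, ha, b, hb, hb0, hbo, hab⟩ := (mem_localRing hf).1 hx
  exact (mem_localRing (hfw.mul hf)).2 ⟨a, hn a ha, b, hn b hb, hb0, hbo, hab⟩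

theorem int_loc {z : Sys K} (hz : Model z) {P : Place ℂ K} {x : K}
    (hx : IsIntegral (locAlg z P) x) : x ∈ localRing z P := by
  refine mem_localRing_of_reg hz fun P' _ hP' => ?_
  exact reg_of_int (R := locAlg z P) (fun r hr => hP' r hr) hx

/-- the system `w` is base point free at the centre of `P` -/
def LB (z w : Sys K) (P : Place ℂ K) : Prop := ∃ f ∈ w.s, ∀ g ∈ w.s, g / f ∈ localRing z P

theorem LB.top {z w : Sys K} {P : Place ℂ K} (h : LB z w P) : ∃ f, Top w f P ∧
    ∀ g ∈ w.s, g / f ∈ localRing z P := by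
  obtain ⟨f, hf, h⟩ := h
  exact ⟨f, ⟨hf, fun g hg => localRing_reg (h g hg)⟩, h⟩

theorem loc_eq {z w : Sys K} (hz : Model z) {P : Place ℂ K} (h : LB z w P) :
    localRing (w.mul z) P = localRing z P := by
  apply subset_antisymm _ (dom_mul w z P)
  obtain ⟨fw, hfw, hg⟩ := h.top
  obtain ⟨f, hf⟩ := exists_top z P
  have hc : ∀ a ∈ chart (w.mul z) (fw * f), a ∈ locAlg z P := by
    intro a ha
    have h1 : chart (w.mul z) (fw * f) ≤ locAlg z P := by
      rw [chart, Algebra.adjoin_le_iff]
      rintro h ⟨g, hg', rfl⟩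
      obtain ⟨g1, hg1, g2, hg2, rfl⟩ := Sys.of_mem_mul hg'
      have h1 : g1 * g2 / (fw * f) = (g1 / fw) * (g2 / f) := by
        have := w.ne_zero hfw.1
        have := z.ne_zero hf.1
        field_simp
      rw [h1]
      exact localRing_mul (hg g1 hg1) (nchart_localRing hf (gen_mem hg2))
    exact h1 ha
  have hn : ∀ x ∈ nchart (w.mul z) (fw * f), x ∈ localRing z P := by
    intro x hx
    apply int_loc hz
    rw [mem_nchart] at hx
    obtain ⟨p, hp, hpx⟩ := hx
    refine ⟨p.map (Subalgebra.inclusion (T := locAlg z P) hc).toRingHom, hp.map _, ?_⟩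
    rw [Polynomial.eval₂_map]
    exact hpx
  intro x hx
  obtain ⟨a, ha, b, hb, hb0, hbo, hab⟩ := (mem_localRing (hfw.mul hf)).1 hx
  have h1 := localRing_mul (hn a ha) (localRing_inv (hn b hb) hb0 hbo)
  rwa [← hab, mul_assoc, mul_inv_cancel₀ hb0, mul_one] at h1

/-- a larger function field of the ratios -/
theorem Model.of_le {y y' : Sys K} (hy : Model y)
    (hle : IntermediateField.adjoin ℂ (ratios y) ≤ IntermediateField.adjoin ℂ (ratios y')) :
    Model y' := by
  change FiniteDimensional (IntermediateField.adjoin ℂ (ratios y')) K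
  let _ := (IntermediateField.inclusion hle).toRingHom.toAlgebra
  have : IsScalarTower (IntermediateField.adjoin ℂ (ratios y))
      (IntermediateField.adjoin ℂ (ratios y')) K := IsScalarTower.of_algebraMap_eq fun x => rfl
  have h2 : FiniteDimensional (IntermediateField.adjoin ℂ (ratios y)) K := hy
  exact FiniteDimensional.right (IntermediateField.adjoin ℂ (ratios y)) _ K

theorem Model.mul {w z : Sys K} (hz : Model z) : Model (w.mul z) := by
  refine hz.of_le ?_
  apply IntermediateField.adjoin.mono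
  rintro h ⟨f, hf, g, hg, rfl⟩
  obtain ⟨fw, hfw⟩ := w.ne
  refine ⟨fw * f, Sys.mem_mul hfw hf, fw * g, Sys.mem_mul hfw hg, ?_⟩
  have := w.ne_zero hfw
  have := z.ne_zero hf
  field_simp

/-- the residues of the elements of the local ring are algebraic over the residues of the ratios of
the coordinates -/
theorem res_alg_loc {y : Sys K} {P : Place ℂ K} {f : K} (hf : Top y f P)
    {F0 : IntermediateField ℂ P.RF} (h : ∀ g ∈ y.s, P.red (g / f) ∈ F0) {x : K}
    (hx : x ∈ localRing y P) : IsAlgebraic F0 (P.red x) := by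
  let ρ : chart y f →+* P.O := (chart y f).subtype.codRestrict P.O
    fun a => reg_chart hf a a.2
  have hρ : ∀ a : chart y f, P.resHom (ρ a) ∈ F0 := by
    rintro ⟨a, ha⟩
    have h1 : ∀ b (hb : b ∈ chart y f), P.red b ∈ F0 := by
      intro b hb
      induction hb using Algebra.adjoin_induction with
      | mem x hx =>
        obtain ⟨g, hg, rfl⟩ := hx
        exact h g hg
      | algebraMap r =>
        rw [← P.algebraMap_RF]
        exact F0.algebraMap_mem r
      | add x x' hx hx' h2 h3 =>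
        rw [P.red_add (reg_chart hf x hx) (reg_chart hf x' hx')]
        exact F0.add_mem h2 h3
      | mul x x' hx hx' h2 h3 =>
        rw [P.red_mul (reg_chart hf x hx) (reg_chart hf x' hx')]
        exact F0.mul_mem h2 h3
    have h2 := h1 a ha
    rw [P.red_of_reg (reg_chart hf a ha)] at h2
    exact h2
  let φ : chart y f →+* F0 := (P.resHom.comp ρ).codRestrict F0.toSubring hρ
  let _ : Algebra (chart y f) P.O := ρ.toAlgebra
  have : IsScalarTower (chart y f) P.O K := IsScalarTower.of_algebraMap_eq fun x => rfl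
  have hint : ∀ a ∈ nchart y f, IsAlgebraic F0 (P.red a) := by
    intro a ha
    have hreg := hf.reg a ha
    have h1 : IsIntegral (chart y f) (algebraMap P.O K ⟨a, hreg⟩) := mem_nchart.1 ha
    rw [isIntegral_algebraMap_iff (IsFractionRing.injective P.O K)] at h1
    have h2 := h1.map_of_comp_eq φ P.resHom (by
      ext a
      rfl)
    rw [P.red_of_reg hreg]
    exact h2.isAlgebraic
  obtain ⟨a, ha, b, hb, hb0, hbo, hab⟩ := (mem_localRing hf).1 hx
  have hbr : P.red b ≠ 0 := by
    intro h0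
    rcases (P.red_eq_zero_iff (hf.reg b hb)).1 h0 with h1 | h1
    · exact hb0 h1
    · omega
  have h1 : P.red x = P.red a / P.red b := by
    rw [eq_div_iff hbr, ← P.red_mul (localRing_reg hx) (hf.reg b hb), hab]
  rw [h1, div_eq_mul_inv]
  exact (hint a ha).mul (hint b hb).inv

/-- a centre at which all the ratios of the coordinates are constant -/
theorem const_of_bot {y : Sys K} {P : Place ℂ K} {f : K} (hf : Top y f P)
    (h : ∀ g ∈ y.s, ∃ c : ℂ, P.red (g / f) = algebraMap ℂ P.RF c) {x : K}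
    (hx : x ∈ localRing y P) : ∃ c : ℂ, P.red x = algebraMap ℂ P.RF c := by
  have h1 := res_alg_loc hf (F0 := ⊥) (fun g hg => by
    obtain ⟨c, hc⟩ := h g hg
    rw [hc]
    exact IntermediateField.algebraMap_mem _ _) hx
  have h2 : IsAlgebraic ℂ (P.red x) := by
    have : Algebra.IsAlgebraic ℂ (⊥ : IntermediateField ℂ P.RF) := by
      have := (IntermediateField.botEquiv ℂ P.RF).symm.isAlgebraic
      exact this
    exact h1.restrictScalars ℂ
  obtain ⟨c, hc⟩ := minpoly.mem_range_of_degree_eq_one ℂ (P.red x)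
    (IsAlgClosed.degree_eq_one_of_irreducible ℂ (minpoly.irreducible h2.isIntegral))
  exact ⟨c, hc.symm⟩

end

end Pool.Agent.Q73.LT
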