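import Pool.Agent.Q73.FL.Irr2

/-!
The sequence of the models.
-/

set_option autoImplicit false

open FF Pool.Agent.W603.LV Pool.Agent.W602.GT Pool.Agent.Q73.FL

namespace Pool.Agent.Q73.LT

namespace Exa

variable {κ K : Type} [Field κ] [Algebra ℂ κ] [Field K] [Algebra ℂ K] [Algebra κ K]
  (E : Exa κ K)

/-- the shifted data -/
noncomputable def sh : Exa κ K where
  toCrv := E.toCrv.shift
  z := E.z
  z_ne := E.z_ne

/-- the iterated shifts -/
noncomputable def it (E : Exa κ K) : ℕ → Exa κ K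
  | 0 => E
  | n + 1 => (E.it n).sh

theorem it_z (n : ℕ) : (E.it n).z = E.z := by
  induction n with
  | zero => rfl
  | succ n ih => rw [it]; exact ih

theorem it_C (n i : ℕ) : (E.it n).C i = E.C (n + i) := by
  induction n generalizing i with
  | zero => rw [it, Nat.zero_add]
  | succ n ih =>
    rw [it]
    change (E.it n).toCrv.shift.C i = _
    rw [Crv.shift_C, ih]
    congr 1
    omega

theorem it_gen (h : E.Gen) (n : ℕ) : (E.it n).Gen := by
  induction n with
  | zero => exact h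
  | succ n ih => exact ih.shift

theorem V_congr {E E' : Exa κ K} (hz : E.z = E'.z) {i j : ℕ} (hC : E.C i = E'.C j) :
    E.V i = E'.V j := by
  apply Sys.ext_s
  ext g
  unfold V
  rw [mem_VV, mem_VV, hC]
  unfold zi
  rw [hz]

theorem T3_congr {E E' : Exa κ K} (hz : E.z = E'.z) : E.T3 = E'.T3 := by
  apply Sys.ext_s
  ext g
  unfold T3
  rw [mem_pen, mem_pen, hz]

theorem it_V (n i : ℕ) : (E.it n).V i = E.V (n + i) := V_congr (E.it_z n) (E.it_C n i)

theorem it_T3 (n : ℕ) : (E.it n).T3 = E.T3 := T3_congr (E.it_z n)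

/-- the bases of the flips -/
noncomputable def zs (n : ℕ) : Sys K := (E.V (n + 1)).mul ((E.V (n + 2)).mul E.T3)

/-- the models -/
noncomputable def ys (n : ℕ) : Sys K := (E.V n).mul (E.zs n)

theorem it_zm (n : ℕ) : (E.it n).zm = E.zs n := by
  unfold zm zs
  rw [it_V, it_V, it_T3]

theorem it_y0 (n : ℕ) : (E.it n).ym ((E.it n).C 0) ((E.it n).C_ne 0) = E.ys n := by
  change ((E.it n).V 0).mul (E.it n).zm = _
  unfold ys
  rw [it_V, it_zm, Nat.add_zero]

theorem ys_succ (n : ℕ) : E.ys (n + 1) = (E.V (n + 3)).mul (E.zs n) := by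
  unfold ys zs
  change (E.V (n + 1)).mul ((E.V (n + 2)).mul ((E.V (n + 3)).mul E.T3)) = _
  rw [Sys.mul_left_comm' (E.V (n + 3)), Sys.mul_left_comm' (E.V (n + 3)) (E.V (n + 2))]

theorem it_y3 (n : ℕ) : (E.it n).ym ((E.it n).C 3) ((E.it n).C_ne 3) = E.ys (n + 1) := by
  change ((E.it n).V 3).mul (E.it n).zm = _
  rw [it_V, it_zm, ys_succ]

end Exa

theorem Crv.ind12 {κ : Type} [Field κ] [Algebra ℂ κ] (E : Crv κ) :
    AlgebraicIndependent ℂ ![E.C 1, E.C 2] := by
  have hc1 : E.C 1 = E.c := E.C_one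
  have h2 : ∀ {F : IntermediateField ℂ κ}, E.C 2 ∈ acl F → E.y2 ∈ acl F := by
    intro F h
    rw [E.C_two] at h
    apply sq_mem (a := E.y2 ^ 2 - 1 + 1) (add_mem h (one_mem _))
    ring
  rw [ind_pair]
  constructor
  · intro h
    have h1 : ∀ t : κ, E.C 1 ∈ acl (IntermediateField.adjoin ℂ {t}) := by
      intro t
      rw [mem_acl]
      exact h.tower_top _
    refine E.nd E.y2 (E.mem1 ?_) (Crv.self_mem _)
    rw [← hc1]
    exact h1 _
  · intro h
    refine E.nd (E.C 1) (E.mem1 ?_) (h2 h)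
    rw [← hc1]
    exact Crv.self_mem _

section

variable {κ K : Type} [Field κ] [Algebra ℂ κ] [Field K] [Algebra ℂ K] [Algebra κ K]
  [IsScalarTower ℂ κ K]

theorem map_acl {a b : κ} {x : κ} (hx : x ∈ acl (IntermediateField.adjoin ℂ {a, b})) :
    algebraMap κ K x ∈
      acl (IntermediateField.adjoin ℂ {algebraMap κ K a, algebraMap κ K b}) := by
  have h3 := mem_acl.1 hx
  let φ : IntermediateField.adjoin ℂ {a, b} →+*
      IntermediateField.adjoin ℂ {algebraMap κ K a, algebraMap κ K b} :=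
    ((algebraMap κ K).comp (algebraMap (IntermediateField.adjoin ℂ {a, b}) κ)).codRestrict
      (IntermediateField.adjoin ℂ {algebraMap κ K a, algebraMap κ K b}).toSubring
      (fun x => by
        have h4 := IntermediateField.adjoin_map ℂ {a, b} (IsScalarTower.toAlgHom ℂ κ K)
        have h5 : (IsScalarTower.toAlgHom ℂ κ K : κ →ₐ[ℂ] K) '' {a, b} =
            {algebraMap κ K a, algebraMap κ K b} := Set.image_pair _ _ _
        rw [h5] at h4
        change algebraMap κ K (x : κ) ∈ IntermediateField.adjoin ℂ _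
        rw [← h4]
        exact ⟨x, x.2, rfl⟩)
  exact mem_acl.2 (h3.ringHom_of_comp_eq φ (algebraMap κ K) φ.injective (by ext; rfl))

theorem full_up3 {a b : κ} (hF : Full {a, b}) {z : K} (g1 : Gen1 κ z) (x : K) :
    x ∈ acl (IntermediateField.adjoin ℂ {algebraMap κ K a, algebraMap κ K b, z}) := by
  have h1 : ∀ c : κ, algebraMap κ K c ∈
      acl (IntermediateField.adjoin ℂ {algebraMap κ K a, algebraMap κ K b, z}) := by
    intro c
    refine acl_mono ?_ (map_acl (hF c))
    refine (IntermediateField.adjoin.mono _ _ _ ?_).trans (le_acl _)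
    intro s hs
    rcases hs with rfl | rfl
    · simp
    · simp
  have hz : z ∈ acl (IntermediateField.adjoin ℂ {algebraMap κ K a, algebraMap κ K b, z}) :=
    self_mem_acl (by simp)
  have h2 : ∀ p : Polynomial κ, Polynomial.aeval z p ∈
      acl (IntermediateField.adjoin ℂ {algebraMap κ K a, algebraMap κ K b, z}) := by
    intro p
    rw [Polynomial.aeval_eq_sum_range]
    refine sum_mem fun i _ => ?_
    rw [Algebra.smul_def]
    exact mul_mem (h1 _) (pow_mem hz i)
  obtain ⟨p, q, -, rfl⟩ := g1.gen x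
  exact div_mem (h2 p) (h2 q)

theorem fd_of_full [Algebra.EssFiniteType ℂ K] {S : Set K}
    (h : ∀ x : K, x ∈ acl (IntermediateField.adjoin ℂ S)) :
    FiniteDimensional (IntermediateField.adjoin ℂ S) K := by
  set K0 := IntermediateField.adjoin ℂ S with hK0
  have hess : Algebra.EssFiniteType K0 K := Algebra.EssFiniteType.of_comp ℂ K0 K
  have halg : Algebra.IsAlgebraic K0 K := ⟨fun x => mem_acl.1 (h x)⟩
  obtain ⟨s, hs⟩ := IntermediateField.fg_top K0 K
  have h1 : FiniteDimensional K0 (IntermediateField.adjoin K0 (s : Set K)) :=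
    IntermediateField.finiteDimensional_adjoin fun x _ => (halg.isAlgebraic x).isIntegral
  rw [hs] at h1
  exact h1.equiv IntermediateField.topEquiv.toLinearEquiv

end

namespace Exa

variable {κ K : Type} [Field κ] [Algebra ℂ κ] [Field K] [Algebra ℂ K] [Algebra κ K]
  [IsScalarTower ℂ κ K] (E : Exa κ K)

theorem S1_model [Algebra.EssFiniteType ℂ K] (hn : Algebra.trdeg ℂ κ = 2) (g1 : Gen1 κ E.z) :
    Model E.S1 := by
  have hfd := fd_of_full (full_up3 (K := K) (full_of_ind hn E.toCrv.ind12) g1)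
  have one : ∀ {f : K} (hf : f ≠ 0), (1 : K) ∈ (pen f hf).s := fun hf =>
    (mem_pen hf).2 (Or.inl rfl)
  have self : ∀ {f : K} (hf : f ≠ 0), f ∈ (pen f hf).s := fun hf =>
    (mem_pen hf).2 (Or.inr rfl)
  have h1 : (1 : K) ∈ E.S1.s := by
    have := Sys.mem_mul (one (map_ne (K := K) (E.C_ne 1)))
      (Sys.mem_mul (one (map_ne (K := K) (E.C_ne 2))) (one E.z_ne))
    rw [mul_one, mul_one] at this
    exact this
  have h2 : algebraMap κ K (E.C 1) ∈ E.S1.s := by
    have := Sys.mem_mul (self (map_ne (K := K) (E.C_ne 1)))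
      (Sys.mem_mul (one (map_ne (K := K) (E.C_ne 2))) (one E.z_ne))
    rw [mul_one, mul_one] at this
    exact this
  have h3 : algebraMap κ K (E.C 2) ∈ E.S1.s := by
    have := Sys.mem_mul (one (map_ne (K := K) (E.C_ne 1)))
      (Sys.mem_mul (self (map_ne (K := K) (E.C_ne 2))) (one E.z_ne))
    rw [mul_one, one_mul] at this
    exact this
  have h4 : E.z ∈ E.S1.s := by
    have := Sys.mem_mul (one (map_ne (K := K) (E.C_ne 1)))
      (Sys.mem_mul (one (map_ne (K := K) (E.C_ne 2))) (self E.z_ne))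
    rw [one_mul, one_mul] at this
    exact this
  have hle : IntermediateField.adjoin ℂ {algebraMap κ K (E.C 1), algebraMap κ K (E.C 2), E.z} ≤
      IntermediateField.adjoin ℂ {h | ∃ f ∈ E.S1.s, ∃ g ∈ E.S1.s, h = g / f} := by
    apply IntermediateField.adjoin.mono
    rintro x (rfl | rfl | rfl)
    · exact ⟨1, h1, _, h2, by rw [div_one]⟩
    · exact ⟨1, h1, _, h3, by rw [div_one]⟩
    · exact ⟨1, h1, _, h4, by rw [div_one]⟩
  unfold Model
  let _ := (IntermediateField.inclusion hle).toRingHom.toAlgebra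
  have : IsScalarTower
      (IntermediateField.adjoin ℂ {algebraMap κ K (E.C 1), algebraMap κ K (E.C 2), E.z})
      (IntermediateField.adjoin ℂ {h | ∃ f ∈ E.S1.s, ∃ g ∈ E.S1.s, h = g / f}) K :=
    IsScalarTower.of_algebraMap_eq fun x => rfl
  exact FiniteDimensional.right
    (IntermediateField.adjoin ℂ {algebraMap κ K (E.C 1), algebraMap κ K (E.C 2), E.z}) _ K

/-- the small contractions of the sequence -/
theorem sc_zero [Algebra.EssFiniteType ℂ K] [Algebra.EssFiniteType ℂ κ]
    (hn : Algebra.trdeg ℂ κ = 2) (hn3 : Algebra.trdeg ℂ K = (3 : ℕ)) (g1 : Gen1 κ E.z)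
    (hg : E.Gen) : SmallContraction (E.ym (E.C 0) (E.C_ne 0)) E.zm := by
  have hS := E.S1_model hn g1
  have hz := E.zm_model hS
  obtain ⟨p, a, hp⟩ := Crv.exists_pol_zero hg hn
  exact
    { model := Model.mul hz
      model' := hz
      dom := dom_mul _ _
      small := small E.trip_zero hS hn3
      irr := irr E.trip_zero hp hS hn hn3 g1 }

theorem sc_three [Algebra.EssFiniteType ℂ K] [Algebra.EssFiniteType ℂ κ]
    (hn : Algebra.trdeg ℂ κ = 2) (hn3 : Algebra.trdeg ℂ K = (3 : ℕ)) (g1 : Gen1 κ E.z)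
    (hg : E.Gen) : SmallContraction (E.ym (E.C 3) (E.C_ne 3)) E.zm := by
  have hS := E.S1_model hn g1
  have hz := E.zm_model hS
  obtain ⟨p, a, hp⟩ := Crv.exists_pol_three hg hn
  exact
    { model := Model.mul hz
      model' := hz
      dom := dom_mul _ _
      small := small E.trip_three hS hn3
      irr := irr E.trip_three hp hS hn hn3 g1 }

theorem sc_left [Algebra.EssFiniteType ℂ K] [Algebra.EssFiniteType ℂ κ]
    (hn : Algebra.trdeg ℂ κ = 2) (hn3 : Algebra.trdeg ℂ K = (3 : ℕ)) (g1 : Gen1 κ E.z)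
    (hg : E.Gen) (n : ℕ) : SmallContraction (E.ys n) (E.zs n) := by
  rw [← it_y0, ← it_zm]
  exact (E.it n).sc_zero hn hn3 (by rw [it_z]; exact g1) (E.it_gen hg n)

theorem sc_right [Algebra.EssFiniteType ℂ K] [Algebra.EssFiniteType ℂ κ]
    (hn : Algebra.trdeg ℂ κ = 2) (hn3 : Algebra.trdeg ℂ K = (3 : ℕ)) (g1 : Gen1 κ E.z)
    (hg : E.Gen) (n : ℕ) : SmallContraction (E.ys (n + 1)) (E.zs n) := by
  rw [← it_y3, ← it_zm]
  exact (E.it n).sc_three hn hn3 (by rw [it_z]; exact g1) (E.it_gen hg n)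

end Exa

end Pool.Agent.Q73.LT
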