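import Pool.Agent.Q73.FL.Grp

/-!
The local heights of three points with sum zero.
-/

set_option autoImplicit false

open FF Pool.Agent.W603.LV

namespace Pool.Agent.Q73.LT

theorem GG_swap {F : Type} [Field F] (g x y z : F) : GG g x y z = GG g y x z := by
  unfold GG
  ring

theorem GG_swap' {F : Type} [Field F] (g x y z : F) : GG g x y z = GG g x z y := by
  unfold GG
  ring

section

variable {κ K : Type} [Field κ] [Algebra ℂ κ] [Field K] [Algebra ℂ K] [Algebra κ K]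

theorem tri3K (P : Place ℂ K) {c x y z : κ} (hc : c ≠ 0) (hx : x ≠ 0) (hy : y ≠ 0) (hz : z ≠ 0)
    (h0 : GG (1 / c) x y z = 0) :
    min (ht P (algebraMap κ K (c * x ^ 3))) (ht P (algebraMap κ K (c * y ^ 3))) =
      min (ht P (algebraMap κ K (c * y ^ 3))) (ht P (algebraMap κ K (c * z ^ 3))) := by
  have hne : ∀ {f : κ}, f ≠ 0 → algebraMap κ K f ≠ 0 := fun hf => by
    rw [Ne, map_eq_zero]
    exact hf
  have h1 := congrArg (algebraMap κ K) h0
  unfold GG at h1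
  simp only [map_mul, map_add, map_sub, map_pow, map_div₀, map_ofNat, map_one, map_zero] at h1
  have key := tri3 P (hne hc) (hne hx) (hne hy) (hne hz) (by
    unfold GG
    exact h1)
  simp only [map_mul, map_pow]
  exact key

/-- the ultrametric inequality -/
theorem ult (P : Place ℂ K) {c x y t : κ} (hc : c ≠ 0) (hx : x ≠ 0) (hy : y ≠ 0) (ht0 : t ≠ 0)
    (h0 : GG (1 / c) x y t = 0) :
    (ht P (algebraMap κ K (c * x ^ 3)) < ht P (algebraMap κ K (c * y ^ 3)) →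
      ht P (algebraMap κ K (c * t ^ 3)) = ht P (algebraMap κ K (c * x ^ 3))) ∧
    (ht P (algebraMap κ K (c * y ^ 3)) < ht P (algebraMap κ K (c * x ^ 3)) →
      ht P (algebraMap κ K (c * t ^ 3)) = ht P (algebraMap κ K (c * y ^ 3))) ∧
    (ht P (algebraMap κ K (c * x ^ 3)) = ht P (algebraMap κ K (c * y ^ 3)) →
      ht P (algebraMap κ K (c * x ^ 3)) ≤ ht P (algebraMap κ K (c * t ^ 3))) := by
  have h1 := tri3K P hc hx hy ht0 h0
  have h2 := tri3K P hc hy hx ht0 (by rw [← GG_swap]; exact h0)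
  have h3 := tri3K P hc hx ht0 hy (by rw [← GG_swap']; exact h0)
  refine ⟨fun h => ?_, fun h => ?_, fun h => ?_⟩ <;> omega

theorem ge_cube {P : Place ℂ K} {f : K} {m : ℤ} (h : Ge P (3 * m - 2) (f ^ 3)) : Ge P m f := by
  rcases h with h | h
  · exact Or.inl (pow_eq_zero_iff (by norm_num) |>.1 h)
  · right
    rw [P.ord_pow] at h
    push_cast at h
    omega

theorem ge_ht' (P : Place ℂ K) (f : K) : Ge P (- ht P f) f := ge_ht P f

/-- the estimate of the difference of the cubes of the abscissas -/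
theorem ge_diff (P : Place ℂ K) {c x y : K} {m : ℤ} (hx : Ge P (-m) (c * x ^ 3))
    (hy : Ge P (-m) (c * y ^ 3)) (hd : Ge P (1 - m) (c * (x - y) ^ 3)) :
    Ge P (1 - m) (c * x ^ 3 - c * y ^ 3) := by
  apply ge_cube
  have hmon : ∀ i j : ℕ, i + j = 6 → Ge P (-2 * m) (c ^ 2 * (x ^ i * y ^ j)) := by
    intro i j hij
    apply ge_cube
    have h1 : (c ^ 2 * (x ^ i * y ^ j)) ^ 3 = (c * x ^ 3) ^ i * (c * y ^ 3) ^ j := by
      have h2 : (c ^ 2 * (x ^ i * y ^ j)) ^ 3 = c ^ 6 * (x ^ 3) ^ i * (y ^ 3) ^ j := by ring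
      rw [h2, ← hij, pow_add]
      ring
    rw [h1]
    have h3 := (hx.pow i).mul (hy.pow j)
    refine h3.mono ?_
    have h4 : ((i : ℤ) + j) = 6 := by exact_mod_cast hij
    have h5 : (i : ℤ) * -m + j * -m = -6 * m := by
      rw [← add_mul, h4]
      ring
    linarith
  have h2 : (c * x ^ 3 - c * y ^ 3) ^ 3 = (c * (x - y) ^ 3) *
      (c ^ 2 * (x ^ 6 * y ^ 0) + 3 * (c ^ 2 * (x ^ 5 * y ^ 1)) + 6 * (c ^ 2 * (x ^ 4 * y ^ 2)) +
        7 * (c ^ 2 * (x ^ 3 * y ^ 3)) + 6 * (c ^ 2 * (x ^ 2 * y ^ 4)) +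
        3 * (c ^ 2 * (x ^ 1 * y ^ 5)) + c ^ 2 * (x ^ 0 * y ^ 6)) := by ring
  rw [h2]
  have hnat : ∀ n : ℕ, ∀ i j : ℕ, i + j = 6 → Ge P (-2 * m) ((n : K) * (c ^ 2 * (x ^ i * y ^ j))) := by
    intro n i j hij
    have h3 := (Ge.natCast (P := P) n).mul (hmon i j hij)
    rwa [zero_add] at h3
  have h3 : Ge P (-2 * m) (c ^ 2 * (x ^ 6 * y ^ 0) + 3 * (c ^ 2 * (x ^ 5 * y ^ 1)) +
      6 * (c ^ 2 * (x ^ 4 * y ^ 2)) +
        7 * (c ^ 2 * (x ^ 3 * y ^ 3)) + 6 * (c ^ 2 * (x ^ 2 * y ^ 4)) +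
        3 * (c ^ 2 * (x ^ 1 * y ^ 5)) + c ^ 2 * (x ^ 0 * y ^ 6)) := by
    refine (((((((hmon 6 0 rfl).add ?_).add ?_).add ?_).add ?_).add ?_).add (hmon 0 6 rfl))
    · exact_mod_cast hnat 3 5 1 rfl
    · exact_mod_cast hnat 6 4 2 rfl
    · exact_mod_cast hnat 7 3 3 rfl
    · exact_mod_cast hnat 6 2 4 rfl
    · exact_mod_cast hnat 3 1 5 rfl
  exact (hd.mul h3).mono (by linarith)

end

namespace Exa

variable {κ K : Type} [Field κ] [Algebra ℂ κ] [Field K] [Algebra ℂ K] [Algebra κ K]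
  (E : Exa κ K)

/-- the product of the pencils of the two points and of the parameter -/
noncomputable def S1 : Sys K := (E.TC 1).mul ((E.TC 2).mul E.T3)

/-- the properties of the sum and of the difference of the two points -/
structure Trip (t : κ) : Prop where
  ne : t ≠ 0
  lt12 : ∀ P : Place ℂ K, E.H 1 P < E.H 2 P → ht P (algebraMap κ K t) = E.H 1 P
  lt21 : ∀ P : Place ℂ K, E.H 2 P < E.H 1 P → ht P (algebraMap κ K t) = E.H 2 P
  eq12 : ∀ P : Place ℂ K, E.H 1 P = E.H 2 P → E.H 1 P ≤ ht P (algebraMap κ K t)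
  red : ∀ P : Place ℂ K, E.H 1 P = E.H 2 P → E.H 1 P < ht P (algebraMap κ K t) →
    Ge P (1 - E.H 1 P) (algebraMap κ K (E.C 1) - algebraMap κ K (E.C 2))
  cof : ∀ h : algebraMap κ K t ≠ 0, Cof E.S1 (pen (algebraMap κ K t) h)

theorem cof_left (y z : Sys K) : Cof (y.mul z) y := ⟨z, 1, fun P => by
  rw [L_mul]
  push_cast
  ring⟩

theorem cof_right (y z : Sys K) : Cof (y.mul z) z := ⟨y, 1, fun P => by
  rw [L_mul]
  push_cast
  ring⟩

theorem Cof.trans_mul {y y' z : Sys K} (h : Cof y z) : Cof (y'.mul y) z := by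
  obtain ⟨z', k, hk⟩ := h
  refine ⟨z'.mul (y'.pow k), k, fun P => ?_⟩
  rw [L_mul, L_pow, L_mul, mul_add, ← hk P]
  ring

theorem cof_S1_1 : Cof E.S1 (E.TC 1) := cof_left _ _

theorem cof_S1_2 : Cof E.S1 (E.TC 2) := Cof.trans_mul (cof_left _ _)

theorem cof_S1_3 : Cof E.S1 E.T3 := Cof.trans_mul (cof_right _ _)

/-- the two distinguished third points -/
theorem law0 (P : Place ℂ K) : E.H 3 P + E.H 0 P = 2 * E.H 1 P + 2 * E.H 2 P +
    2 * P.ord (algebraMap κ K (E.c * (E.x 1 - E.x 2) ^ 3)) := by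
  rw [E.H_law 0 P]
  unfold Crv.g
  rw [map_pow, P.ord_pow]
  push_cast
  rfl

theorem d_ne : algebraMap κ K (E.c * (E.x 1 - E.x 2) ^ 3) ≠ 0 :=
  map_ne (mul_ne_zero E.c_ne (pow_ne_zero _ (sub_ne_zero.2 (E.good 0).ne)))

theorem red_aux (P : Place ℂ K) (h12 : E.H 1 P = E.H 2 P)
    (h : 2 * E.H 1 P < E.H 3 P + E.H 0 P) :
    Ge P (1 - E.H 1 P) (algebraMap κ K (E.C 1) - algebraMap κ K (E.C 2)) := by
  have h1 := E.law0 P
  have h2 : 1 - E.H 1 P ≤ P.ord (algebraMap κ K (E.c * (E.x 1 - E.x 2) ^ 3)) := by omega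
  have e1 : algebraMap κ K (E.C 1) = algebraMap κ K E.c * algebraMap κ K (E.x 1) ^ 3 := by
    unfold Crv.C
    rw [map_mul, map_pow]
  have e2 : algebraMap κ K (E.C 2) = algebraMap κ K E.c * algebraMap κ K (E.x 2) ^ 3 := by
    unfold Crv.C
    rw [map_mul, map_pow]
  have h3 : Ge P (-E.H 1 P) (algebraMap κ K (E.C 1)) := ge_ht P _
  have h4 : Ge P (-E.H 1 P) (algebraMap κ K (E.C 2)) := by
    rw [h12]
    exact ge_ht P _
  rw [e1] at h3 ⊢
  rw [e2] at h4 ⊢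
  refine ge_diff P h3 h4 ?_
  right
  rw [map_mul, map_pow, map_sub] at h2
  exact h2

theorem ult0 (P : Place ℂ K) : (E.H 1 P < E.H 2 P → E.H 0 P = E.H 1 P) ∧
    (E.H 2 P < E.H 1 P → E.H 0 P = E.H 2 P) ∧ (E.H 1 P = E.H 2 P → E.H 1 P ≤ E.H 0 P) := by
  have h := E.good 0
  exact ult P E.c_ne h.h1 h.h2 h.h0 (by rw [← GG_swap', ← GG_swap]; exact h.G)

theorem ult3 (P : Place ℂ K) : (E.H 1 P < E.H 2 P → E.H 3 P = E.H 1 P) ∧
    (E.H 2 P < E.H 1 P → E.H 3 P = E.H 2 P) ∧ (E.H 1 P = E.H 2 P → E.H 1 P ≤ E.H 3 P) := by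
  have h := E.good 1
  exact ult P E.c_ne h.h0 h.h1 h.h2 h.G

theorem trip_zero : E.Trip (E.C 0) where
  ne := E.C_ne 0
  lt12 := fun P => (E.ult0 P).1
  lt21 := fun P => (E.ult0 P).2.1
  eq12 := fun P => (E.ult0 P).2.2
  red := by
    intro P h12 h
    have h3 := (E.ult3 P).2.2 h12
    have h4 : E.H 1 P < E.H 0 P := h
    exact E.red_aux P h12 (by omega)
  cof := by
    intro h
    refine Cof.of_add (z' := E.TC 3) (g := algebraMap κ K (E.g 0)) (map_ne (E.g_ne 0))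
      (((E.cof_S1_1).pow 2).mul ((E.cof_S1_2).pow 2)) ?_
    intro P
    rw [L_mul, L_pow, L_pow, L_TC, L_TC, L_TC, L_pen']
    have h1 := E.H_law 0 P
    have h2 : ht P (algebraMap κ K (E.C 0)) = E.H 0 P := rfl
    rw [h2]
    push_cast
    linarith

theorem trip_three : E.Trip (E.C 3) where
  ne := E.C_ne 3
  lt12 := fun P => (E.ult3 P).1
  lt21 := fun P => (E.ult3 P).2.1
  eq12 := fun P => (E.ult3 P).2.2
  red := by
    intro P h12 h
    have h3 := (E.ult0 P).2.2 h12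
    have h4 : E.H 1 P < E.H 3 P := h
    exact E.red_aux P h12 (by omega)
  cof := by
    intro h
    refine Cof.of_add (z' := E.TC 0) (g := algebraMap κ K (E.g 0)) (map_ne (E.g_ne 0))
      (((E.cof_S1_1).pow 2).mul ((E.cof_S1_2).pow 2)) ?_
    intro P
    rw [L_mul, L_pow, L_pow, L_TC, L_TC, L_TC, L_pen']
    have h1 := E.H_law 0 P
    have h2 : ht P (algebraMap κ K (E.C 3)) = E.H 3 P := rfl
    rw [h2]
    push_cast
    linarith

end Exa

end Pool.Agent.Q73.LT
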