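import Pool.Agent.Q73.FL.Tri

/-!
The curve on which the sum of the two points is zero is irreducible.
-/

set_option autoImplicit false

open FF Pool.Agent.W603.LV Polynomial

namespace Pool.Agent.Q73.LT

section

variable {κ : Type} [Field κ] [Algebra ℂ κ]

theorem ord_aeval_neg {P : Place ℂ κ} {F : IntermediateField ℂ κ} (hF : Triv P F) {x : κ}
    (hx : P.ord x < 0) {p : F[X]} (hp : p ≠ 0) :
    aeval x p ≠ 0 ∧ P.ord (aeval x p) = p.natDegree * P.ord x := by
  have hx0 : x ≠ 0 := by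
    rintro rfl
    rw [P.ord_zero] at hx
    exact lt_irrefl _ hx
  let _ : Invertible x := invertibleOfNonzero hx0
  have h1 := eval₂_reverse_mul_pow (algebraMap F κ) x p
  have h2 : ⅟x = x⁻¹ := invOf_eq_inv x
  rw [h2] at h1
  have h3 : aeval x p = aeval x⁻¹ p.reverse * x ^ p.natDegree := by
    rw [aeval_def, aeval_def, h1]
  have h4 := ord_poly (P := P) (A := F.toSubalgebra) (x := x⁻¹) hF (by
    rw [P.ord_inv]
    omega) (p := p.reverse) (by
    have h5 : p.reverse.coeff 0 = p.leadingCoeff := coeff_zero_reverse p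
    rw [h5]
    exact leadingCoeff_ne_zero.2 hp)
  have h5 : aeval x⁻¹ p.reverse ≠ 0 ∧ P.ord (aeval x⁻¹ p.reverse) = 0 := h4
  rw [h3]
  refine ⟨mul_ne_zero h5.1 (pow_ne_zero _ hx0), ?_⟩
  rw [P.ord_mul h5.1 (pow_ne_zero _ hx0), h5.2, P.ord_pow, zero_add]

end

namespace Crv

variable {κ : Type} [Field κ] [Algebra ℂ κ] {E : Crv κ}

/-- the field of the first ordinate -/
noncomputable def F1 (E : Crv κ) : IntermediateField ℂ κ := IntermediateField.adjoin ℂ {E.y1}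

theorem y1_F1 : E.y1 ∈ E.F1 := IntermediateField.mem_adjoin_simple_self ℂ _

theorem c_F1 : E.c ∈ E.F1 := sub_mem (pow_mem y1_F1 2) (one_mem _)

/-- the elements `a + b y₂` -/
def SS (E : Crv κ) : Set κ := {f | ∃ a ∈ IntermediateField.adjoin E.F1 {E.θ},
  ∃ b ∈ IntermediateField.adjoin E.F1 {E.θ}, f = a + b * E.y2}

theorem L_sub {a : κ} (ha : a ∈ IntermediateField.adjoin E.F1 {E.θ}) : a ∈ SS E :=
  ⟨a, ha, 0, zero_mem _, by rw [zero_mul, add_zero]⟩

theorem θ_L : E.θ ∈ IntermediateField.adjoin E.F1 {E.θ} :=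
  IntermediateField.mem_adjoin_simple_self _ _

theorem F1_L {x : κ} (hx : x ∈ E.F1) : x ∈ IntermediateField.adjoin E.F1 {E.θ} :=
  IntermediateField.algebraMap_mem (IntermediateField.adjoin E.F1 {E.θ}) ⟨x, hx⟩

theorem y2_sq : E.y2 ^ 2 = E.θ ^ 3 * E.c + 1 := by
  have := E.rel
  unfold c
  linear_combination this

theorem u_L : E.y2 ^ 2 ∈ IntermediateField.adjoin E.F1 {E.θ} := by
  rw [y2_sq]
  exact add_mem (mul_mem (pow_mem θ_L 3) (F1_L c_F1)) (one_mem _)

theorem SS_mul {f g : κ} (hf : f ∈ SS E) (hg : g ∈ SS E) : f * g ∈ SS E := by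
  obtain ⟨a, ha, b, hb, rfl⟩ := hf
  obtain ⟨a', ha', b', hb', rfl⟩ := hg
  refine ⟨a * a' + b * b' * E.y2 ^ 2, add_mem (mul_mem ha ha') (mul_mem (mul_mem hb hb') u_L),
    a * b' + b * a', add_mem (mul_mem ha hb') (mul_mem hb ha'), by ring⟩

theorem SS_add {f g : κ} (hf : f ∈ SS E) (hg : g ∈ SS E) : f + g ∈ SS E := by
  obtain ⟨a, ha, b, hb, rfl⟩ := hf
  obtain ⟨a', ha', b', hb', rfl⟩ := hg
  exact ⟨a + a', add_mem ha ha', b + b', add_mem hb hb', by ring⟩

theorem SS_inv {f : κ} (hf : f ∈ SS E) : f⁻¹ ∈ SS E := by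
  obtain ⟨a, ha, b, hb, rfl⟩ := hf
  by_cases hn : a ^ 2 - b ^ 2 * E.y2 ^ 2 = 0
  · have hfac : (a + b * E.y2) * (a - b * E.y2) = 0 := by linear_combination hn
    rcases mul_eq_zero.1 hfac with h | h
    · rw [h, inv_zero]
      exact L_sub (zero_mem _)
    · by_cases hb0 : b = 0
      · rw [hb0, zero_mul, add_zero]
        exact L_sub (inv_mem ha)
      · have hy : E.y2 ∈ IntermediateField.adjoin E.F1 {E.θ} := by
          have h1 : E.y2 = a / b := by
            rw [eq_div_iff hb0]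
            linear_combination -h
          rw [h1]
          exact div_mem ha hb
        exact L_sub (inv_mem (add_mem ha (mul_mem hb hy)))
  · have hne : a + b * E.y2 ≠ 0 := by
      intro h
      apply hn
      linear_combination (a - b * E.y2) * h
    have hN : a ^ 2 - b ^ 2 * E.y2 ^ 2 ∈ IntermediateField.adjoin E.F1 {E.θ} :=
      sub_mem (pow_mem ha 2) (mul_mem (pow_mem hb 2) u_L)
    refine ⟨a / (a ^ 2 - b ^ 2 * E.y2 ^ 2), div_mem ha hN, -b / (a ^ 2 - b ^ 2 * E.y2 ^ 2),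
      div_mem (neg_mem hb) hN, ?_⟩
    rw [inv_eq_one_div, div_eq_iff hne]
    field_simp
    ring

theorem SS_all (hg : E.Gen) (f : κ) : f ∈ SS E := by
  let S : IntermediateField ℂ κ :=
    { carrier := SS E
      mul_mem' := SS_mul
      one_mem' := L_sub (one_mem _)
      add_mem' := SS_add
      zero_mem' := L_sub (zero_mem _)
      algebraMap_mem' := fun r => L_sub (F1_L (E.F1.algebraMap_mem r))
      inv_mem' := fun _ h => SS_inv h }
  have h1 : IntermediateField.adjoin ℂ {E.y1, E.y2, E.θ} ≤ S := by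
    rw [IntermediateField.adjoin_le_iff]
    rintro x (rfl | rfl | rfl)
    · exact L_sub (F1_L y1_F1)
    · exact ⟨0, zero_mem _, 1, one_mem _, by ring⟩
    · exact L_sub θ_L
  have h2 : f ∈ (⊤ : IntermediateField ℂ κ) := trivial
  rw [← hg] at h2
  exact h1 h2

theorem ordL {P Q : Place ℂ κ} (hP : Triv P E.F1) (hQ : Triv Q E.F1)
    (hPθ : P.ord E.θ < 0) (hQθ : Q.ord E.θ < 0) {l : κ}
    (hl : l ∈ IntermediateField.adjoin E.F1 {E.θ}) (hl0 : l ≠ 0) :
    ∃ m : ℤ, P.ord l = m * P.ord E.θ ∧ Q.ord l = m * Q.ord E.θ := by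
  rw [IntermediateField.mem_adjoin_simple_iff] at hl
  obtain ⟨r, s, rfl⟩ := hl
  have hr : r ≠ 0 := by
    rintro rfl
    exact hl0 (by rw [map_zero, zero_div])
  have hs : s ≠ 0 := by
    rintro rfl
    exact hl0 (by rw [map_zero, div_zero])
  have h1 := ord_aeval_neg hP hPθ hr
  have h2 := ord_aeval_neg hP hPθ hs
  have h3 := ord_aeval_neg hQ hQθ hr
  have h4 := ord_aeval_neg hQ hQθ hs
  refine ⟨r.natDegree - s.natDegree, ?_, ?_⟩
  · rw [P.ord_div h1.1 h2.1, h1.2, h2.2]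
    ring
  · rw [Q.ord_div h1.1 h2.1, h3.2, h4.2]
    ring

theorem ord_y2 {P : Place ℂ κ} (hP : Triv P E.F1) (hPθ : P.ord E.θ < 0) :
    2 * P.ord E.y2 = 3 * P.ord E.θ := by
  have hc := hP E.c c_F1 E.c_ne
  have h1 : E.y2 ^ 2 = E.θ ^ 3 * E.c + 1 := y2_sq
  have h2 : P.ord (E.θ ^ 3 * E.c) = 3 * P.ord E.θ := by
    rw [P.ord_mul (pow_ne_zero _ E.θ_ne) E.c_ne, P.ord_pow, hc]
    push_cast
    ring
  have h3 := P.ord_add_eq (f := E.θ ^ 3 * E.c) (g := 1)
    (mul_ne_zero (pow_ne_zero _ E.θ_ne) E.c_ne) one_ne_zero (by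
      rw [h2, P.ord_one]
      omega)
  rw [← h1, h2, P.ord_pow] at h3
  exact_mod_cast h3.2

/-- the pole of the second abscissa is unique -/
theorem uniq_pole (hg : E.Gen) {P Q : Place ℂ κ} (hP : Triv P E.F1) (hQ : Triv Q E.F1)
    (hPθ : P.ord E.θ < 0) (hQθ : Q.ord E.θ < 0) : P = Q := by
  apply Place.eq_of_le
  intro f hf0 hfo
  obtain ⟨a, ha, b, hb, rfl⟩ := SS_all hg f
  have h2P := ord_y2 hP hPθ
  have h2Q := ord_y2 hQ hQθ
  have hy0 : E.y2 ≠ 0 := by
    intro h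
    rw [h, P.ord_zero] at h2P
    omega
  rw [← Q.reg_iff hf0]
  have hA : a ≠ 0 → 0 ≤ P.ord a → 0 ≤ Q.ord a := by
    intro ha0 h
    obtain ⟨m, h1, h2⟩ := ordL hP hQ hPθ hQθ ha ha0
    rw [h1] at h
    rw [h2]
    nlinarith
  have hB : b ≠ 0 → 0 ≤ P.ord (b * E.y2) → 0 ≤ Q.ord (b * E.y2) := by
    intro hb0 h
    obtain ⟨m, h1, h2⟩ := ordL hP hQ hPθ hQθ hb hb0
    rw [P.ord_mul hb0 hy0, h1] at h
    rw [Q.ord_mul hb0 hy0, h2]
    have h3 : 0 ≤ (2 * m + 3) * P.ord E.θ := by linarith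
    have h4 : 0 ≤ (2 * m + 3) * Q.ord E.θ := by nlinarith
    linarith
  by_cases ha0 : a = 0
  · rw [ha0, zero_add] at hfo hf0 ⊢
    exact Or.inr (hB (left_ne_zero_of_mul hf0) hfo)
  by_cases hb0 : b = 0
  · rw [hb0, zero_mul, add_zero] at hfo ⊢
    exact Or.inr (hA ha0 hfo)
  have hby : b * E.y2 ≠ 0 := mul_ne_zero hb0 hy0
  obtain ⟨ma, h1, -⟩ := ordL hP hQ hPθ hQθ ha ha0
  obtain ⟨mb, h3, -⟩ := ordL hP hQ hPθ hQθ hb hb0
  have hne : P.ord a ≠ P.ord (b * E.y2) := by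
    rw [P.ord_mul hb0 hy0, h1, h3]
    intro h
    have h4 : (2 * ma - 2 * mb - 3) * P.ord E.θ = 0 := by linarith
    rcases mul_eq_zero.1 h4 with h5 | h5
    · omega
    · omega
  rcases lt_or_gt_of_ne hne with h | h
  · have h4 := (P.ord_add_eq ha0 hby h).2
    exact Q.reg_add (Or.inr (hA ha0 (by omega))) (Or.inr (hB hb0 (by omega)))
  · have h4 := (P.ord_add_eq hby ha0 h).2
    rw [add_comm] at h4
    exact Q.reg_add (Or.inr (hA ha0 (by omega))) (Or.inr (hB hb0 (by omega)))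

theorem y1_transc : Transcendental ℂ E.y1 := by
  intro h
  refine E.nd E.y2 ?_ (self_mem _)
  rw [mem_acl]
  exact h.extendScalars (algebraMap ℂ _).injective

theorem exists_pole [Algebra.EssFiniteType ℂ κ] (hn : Algebra.trdeg ℂ κ = 2) :
    ∃ P : Place ℂ κ, Triv P E.F1 ∧ P.ord E.θ < 0 := by
  have hFF : IsFF (IntermediateField.adjoin ℂ {E.y1}) κ := isFF_adjoin hn E.y1_transc
  have hθ : Transcendental (IntermediateField.adjoin ℂ {E.y1}) E.θ := by
    intro h
    exact E.nd' E.y1 (E.c_F1 |> le_acl _) (mem_acl.2 h)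
  have h1 := pdeg_pos (k := IntermediateField.adjoin ℂ {E.y1}) hθ
  by_contra hcon
  push Not at hcon
  have h2 := (hasDeg_ht (k := IntermediateField.adjoin ℂ {E.y1}) E.θ).unique
    (hasDeg_zero.congr fun v => by
      have h3 := hcon (base v) (base_triv v)
      have h4 : (base v).ord E.θ = v.ord E.θ := rfl
      rw [h4] at h3
      have h5 : max 0 (- v.ord E.θ) = 0 := by omega
      rw [h5]
      norm_num)
  have h3 : (pdeg (IntermediateField.adjoin ℂ {E.y1}) E.θ : ℝ) = 0 := h2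
  have h4 : pdeg (IntermediateField.adjoin ℂ {E.y1}) E.θ = 0 := by exact_mod_cast h3
  omega

/-- the unique place at which the third point is zero -/
structure Pol (E : Crv κ) (t : κ) (p : Place ℂ κ) (a : ℕ) : Prop where
  pos : 0 < a
  ord : p.ord t = - (2 * a : ℤ)
  triv : Triv p (IntermediateField.adjoin ℂ {E.C 1})
  uniq : ∀ q : Place ℂ κ, Triv q (IntermediateField.adjoin ℂ {E.C 1}) → q.ord t < 0 → q = p

theorem F1_of {E : Crv κ} {q : Place ℂ κ} (h : Triv q (IntermediateField.adjoin ℂ {E.C 1})) :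
    Triv q E.F1 := by
  refine triv_mono h.acl ?_
  unfold F1
  rw [SetLike.coe_subset_coe, IntermediateField.adjoin_le_iff]
  rintro x rfl
  refine E.mem1 ?_
  have h1 : E.c = E.C 1 := by rw [C_one]; rfl
  rw [h1]
  exact self_mem _

theorem exists_pol_three {E : Crv κ} (hg : E.Gen) [Algebra.EssFiniteType ℂ κ]
    (hn : Algebra.trdeg ℂ κ = 2) : ∃ p a, E.Pol (E.C 3) p a := by
  obtain ⟨p, hp, hpθ⟩ := exists_pole (E := E.add) hn
  have hpF : Triv p E.F1 := hp
  have hord : ∀ q : Place ℂ κ, Triv q E.F1 → q.ord (E.C 3) = 3 * q.ord E.ax := by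
    intro q hq
    unfold C
    rw [x_three_eq]
    have hx : E.ax ≠ 0 := E.add.θ_ne
    rw [q.ord_mul E.c_ne (pow_ne_zero _ hx), hq E.c c_F1 E.c_ne, q.ord_pow]
    push_cast
    ring
  have hpθ' : p.ord E.ax < 0 := hpθ
  have h2 := ord_y2 (E := E.add) hp hpθ
  have h2' : 2 * p.ord E.ay = 3 * p.ord E.ax := h2
  have hneg : p.ord E.ay < 0 := by omega
  refine ⟨p, (- p.ord E.ay).toNat, ?_, ?_, ?_, ?_⟩
  · omega
  · rw [hord p hpF]
    omega
  · refine triv_mono hpF ?_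
    rw [SetLike.coe_subset_coe, IntermediateField.adjoin_le_iff]
    rintro x rfl
    have h1 : E.C 1 = E.c := by rw [C_one]; rfl
    rw [h1]
    exact c_F1
  · intro q hq hqt
    have hq' := F1_of hq
    rw [hord q hq'] at hqt
    exact uniq_pole hg.add (P := q) (Q := p) hq' hp (by
      have h : q.ord E.add.θ = q.ord E.ax := rfl
      omega) hpθ

theorem exists_pol_zero {E : Crv κ} (hg : E.Gen) [Algebra.EssFiniteType ℂ κ]
    (hn : Algebra.trdeg ℂ κ = 2) : ∃ p a, E.Pol (E.C 0) p a := by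
  obtain ⟨p, a, h⟩ := exists_pol_three hg.neg hn
  rw [neg_C_three] at h
  refine ⟨p, a, h.pos, h.ord, ?_, ?_⟩
  · have := h.triv
    rwa [neg_C_one] at this
  · intro q hq hqt
    refine h.uniq q ?_ hqt
    rwa [neg_C_one]

end Crv

end Pool.Agent.Q73.LT
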