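import Pool.Agent.Q73.FL.Prod

/-!
The systems `{1, C, z ^ (-2)}`, and the prime divisors of the base of the flip.
-/

set_option autoImplicit false

open FF Pool.Agent.W603.LV Pool.Agent.W602.GT

namespace Pool.Agent.Q73.LT

theorem full_of_gs' {K : Type} [Field K] [Algebra ℂ K] {y : Sys K} {P : Place ℂ K}
    (hP : IsPrimeDivisor y P) {S : Set P.RF}
    (h : ∃ f, GS P (IntermediateField.adjoin ℂ S) y f) : Full S := by
  obtain ⟨f, hf⟩ := h
  intro x
  rw [mem_acl]
  exact res_alg hP hf.top (fun g hg => (hf.2 g hg).2) x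

theorem not_ind_self {L : Type} [Field L] [Algebra ℂ L] {a : L} :
    ¬ AlgebraicIndependent ℂ ![a, a] := fun h =>
  (ind_pair.1 h).2 (self_mem_acl rfl)

theorem ind_ne_zero {L : Type} [Field L] [Algebra ℂ L] {a b : L}
    (h : AlgebraicIndependent ℂ ![a, b]) : a ≠ 0 ∧ b ≠ 0 := by
  constructor
  · rintro rfl
    exact (ind_pair.1 h).1 isAlgebraic_zero
  · rintro rfl
    exact (ind_pair.1 (ind_swap h)).1 isAlgebraic_zero

/-- the heights and the orders -/
theorem ord_of_ht {K : Type} [Field K] [Algebra ℂ K] {P : Place ℂ K} {t : K} (h : 0 < ht P t) :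
    P.ord t = - ht P t := by
  unfold ht at *
  omega

theorem ord_ge_ht {K : Type} [Field K] [Algebra ℂ K] (P : Place ℂ K) (t : K) :
    - ht P t ≤ P.ord t := by
  unfold ht
  omega

namespace Exa

variable {κ K : Type} [Field κ] [Algebra ℂ κ] [Field K] [Algebra ℂ K] [Algebra κ K]
  (E : Exa κ K)

/-- the function `z ^ (-2)` -/
noncomputable def zi : K := E.z⁻¹ ^ 2

theorem zi_ne : E.zi ≠ 0 := pow_ne_zero _ (inv_ne_zero E.z_ne)

/-- twice the local height of `1 / z` -/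
def lam (P : Place ℂ K) : ℤ := 2 * E.lz P

theorem lam_nonneg (P : Place ℂ K) : 0 ≤ E.lam P := by
  have := E.lz_nonneg P
  unfold lam
  omega

theorem zi_ord (P : Place ℂ K) : P.ord E.zi = -(2 * P.ord E.z) := by
  unfold zi
  rw [P.ord_pow, P.ord_inv]
  push_cast
  ring

theorem lam_eq (P : Place ℂ K) : E.lam P = max 0 (2 * P.ord E.z) := by
  unfold lam
  rw [lz_eq]
  omega

theorem ht_zi (P : Place ℂ K) : ht P E.zi = E.lam P := by
  rw [lam_eq]
  unfold ht
  rw [zi_ord, neg_neg]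

/-- the system `{1, t, z ^ (-2)}` -/
noncomputable def VV (t : K) (h : t ≠ 0) : Sys K := (pen t h).un (pen E.zi E.zi_ne)

theorem mem_VV {t : K} {h : t ≠ 0} {g : K} : g ∈ (E.VV t h).s ↔ g = 1 ∨ g = t ∨ g = E.zi := by
  unfold VV
  rw [Sys.mem_un, mem_pen, mem_pen]
  tauto

theorem L_VV {t : K} (h : t ≠ 0) (P : Place ℂ K) : (E.VV t h).L P = max (ht P t) (E.lam P) := by
  unfold VV
  rw [L_un, L_pen', L_pen', ht_zi]

variable {E}

theorem top_zi {t : K} {h : t ≠ 0} {P : Place ℂ K} (h1 : ht P t ≤ E.lam P) (h2 : 0 < E.lam P) :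
    Top (E.VV t h) E.zi P := by
  rw [top_iff (mem_VV E |>.2 (Or.inr (Or.inr rfl))), L_VV, zi_ord]
  rw [lam_eq] at *
  omega

theorem top_t {t : K} {h : t ≠ 0} {P : Place ℂ K} (h1 : E.lam P ≤ ht P t) (h2 : 0 < ht P t) :
    Top (E.VV t h) t P := by
  rw [top_iff (mem_VV E |>.2 (Or.inr (Or.inl rfl))), L_VV, ord_of_ht h2]
  omega

theorem gs_zi {t : K} {h : t ≠ 0} {P : Place ℂ K} {F : IntermediateField ℂ P.RF}
    (h1 : ht P t < E.lam P) : GS P F (E.VV t h) E.zi := by
  have h0 := ht_nonneg P t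
  have h2 := E.lam_eq P
  have h3 := E.zi_ord P
  have h4 := ord_ge_ht P t
  refine ⟨mem_VV E |>.2 (Or.inr (Or.inr rfl)), fun g hg => ?_⟩
  rcases (mem_VV E).1 hg with rfl | rfl | rfl
  · exact MM.pos (by rw [one_div, P.ord_inv]; omega)
  · exact MM.pos (by rw [P.ord_div h E.zi_ne]; omega)
  · rw [div_self E.zi_ne]
    exact MM.one

theorem gs_t {t : K} {h : t ≠ 0} {P : Place ℂ K} {F : IntermediateField ℂ P.RF}
    (h1 : E.lam P ≤ ht P t) (h2 : 0 < ht P t) (h3 : P.red (E.zi / t) ∈ F) :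
    GS P F (E.VV t h) t := by
  have h4 := E.lam_eq P
  have h5 := E.zi_ord P
  have h6 := ord_of_ht h2
  refine ⟨mem_VV E |>.2 (Or.inr (Or.inl rfl)), fun g hg => ?_⟩
  rcases (mem_VV E).1 hg with rfl | rfl | rfl
  · exact MM.pos (by rw [one_div, P.ord_inv]; omega)
  · rw [div_self h]
    exact MM.one
  · refine ⟨Or.inr ?_, h3⟩
    rw [P.ord_div E.zi_ne h]
    omega

theorem gs_T3 {P : Place ℂ K} {F : IntermediateField ℂ P.RF} (h : 0 < E.lam P) :
    GS P F E.T3 1 := by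
  refine GS.pen_one E.z_ne (MM.pos ?_)
  rw [lam_eq] at h
  omega

variable (E)

/-- the systems of the points -/
noncomputable def V (n : ℕ) : Sys K := E.VV (algebraMap κ K (E.C n)) (map_ne (E.C_ne n))

/-- the base of the flip -/
noncomputable def zm : Sys K := (E.V 1).mul ((E.V 2).mul E.T3)

theorem L_V (n : ℕ) (P : Place ℂ K) : (E.V n).L P = max (E.H n P) (E.lam P) := E.L_VV _ P

theorem L_zm (P : Place ℂ K) : E.zm.L P = max (E.H 1 P) (E.lam P) +
    (max (E.H 2 P) (E.lam P) + E.l3 P) := by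
  unfold zm
  rw [L_mul, L_mul, L_V, L_V, L_T3]

theorem L_S1 (P : Place ℂ K) : E.S1.L P = E.H 1 P + (E.H 2 P + E.l3 P) := by
  unfold S1
  rw [L_mul, L_mul, L_TC, L_TC, L_T3]

theorem S1_sub : E.S1.s ⊆ E.zm.s := by
  have hs : ∀ n, (E.TC n).s ⊆ (E.V n).s := by
    intro n g hg
    refine (mem_VV E).2 ?_
    rcases (mem_pen _).1 hg with h | h
    · exact Or.inl h
    · exact Or.inr (Or.inl h)
  intro h hh
  obtain ⟨f, hf, g, hg, rfl⟩ := Sys.of_mem_mul hh
  obtain ⟨g1, hg1, g2, hg2, rfl⟩ := Sys.of_mem_mul hg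
  exact Sys.mem_mul (hs 1 hf) (Sys.mem_mul (hs 2 hg1) hg2)

/-- the residues `z ^ (-2) / C` -/
noncomputable def rt (n : ℕ) : K := E.zi / algebraMap κ K (E.C n)

variable {E}

/-- the heights of the prime divisors of the base of the flip -/
theorem class_zm {t : κ} (T : E.Trip t) {P : Place ℂ K} (hP : IsPrimeDivisor E.zm P)
    (hd : Divisorial 3 P) (hl : 0 < E.lam P) :
    E.H 1 P = E.lam P ∧ E.H 2 P = E.lam P ∧ ht P (algebraMap κ K t) = E.lam P := by
  obtain ⟨u, hu⟩ := exists_ind_red hd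
  have c1 := map_ne (K := K) (E.C_ne 1)
  have c2 := map_ne (K := K) (E.C_ne 2)
  have key : ∀ (S : Set P.RF) (f1 f2 : K), GS P (IntermediateField.adjoin ℂ S) (E.V 1) f1 →
      GS P (IntermediateField.adjoin ℂ S) (E.V 2) f2 → Full S := by
    intro S f1 f2 g1 g2
    exact full_of_gs' hP ⟨_, g1.mul (g2.mul (gs_T3 hl))⟩
  have hm : ∀ {S : Set P.RF} {x : P.RF}, x ∈ S → x ∈ IntermediateField.adjoin ℂ S := fun h =>
    IntermediateField.subset_adjoin ℂ _ h
  by_cases h1 : E.H 1 P < E.lam P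
  · exfalso
    by_cases h2 : E.H 2 P < E.lam P
    · exact not_full_one hu 0 (key {0} _ _ (gs_zi h1) (gs_zi h2))
    · have h2' : E.lam P ≤ ht P (algebraMap κ K (E.C 2)) := not_lt.1 h2
      exact not_full_one hu (P.red (E.rt 2)) (key {P.red (E.rt 2)} _ _ (gs_zi h1)
        (gs_t h2' (by omega) (hm rfl)))
  have h1' : E.lam P ≤ ht P (algebraMap κ K (E.C 1)) := not_lt.1 h1
  by_cases h2 : E.H 2 P < E.lam P
  · exfalso
    exact not_full_one hu (P.red (E.rt 1)) (key {P.red (E.rt 1)} _ _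
      (gs_t h1' (by omega) (hm rfl)) (gs_zi h2))
  have h2' : E.lam P ≤ ht P (algebraMap κ K (E.C 2)) := not_lt.1 h2
  have hF := key {P.red (E.rt 1), P.red (E.rt 2)} _ _ (gs_t h1' (by omega) (hm (by simp [rt])))
    (gs_t h2' (by omega) (hm (by simp [rt])))
  have hind := full_pair hu hF
  obtain ⟨n1, n2⟩ := ind_ne_zero hind
  have o1 := ord_of_ht (P := P) (t := algebraMap κ K (E.C 1)) (by omega)
  have o2 := ord_of_ht (P := P) (t := algebraMap κ K (E.C 2)) (by omega)
  have oz := E.zi_ord P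
  have hle := E.lam_eq P
  have r1 : P.ord (E.rt 1) = E.H 1 P - E.lam P := by
    unfold rt H
    rw [P.ord_div E.zi_ne c1]
    omega
  have r2 : P.ord (E.rt 2) = E.H 2 P - E.lam P := by
    unfold rt H
    rw [P.ord_div E.zi_ne c2]
    omega
  have e1 : E.H 1 P = E.lam P := by
    by_contra hne
    apply n1
    have h3 : 0 < P.ord (E.rt 1) := by
      have : E.lam P ≤ E.H 1 P := h1'
      omega
    exact (P.red_eq_zero_iff (Or.inr h3.le)).2 (Or.inr h3)
  have e2 : E.H 2 P = E.lam P := by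
    by_contra hne
    apply n2
    have h3 : 0 < P.ord (E.rt 2) := by
      have : E.lam P ≤ E.H 2 P := h2'
      omega
    exact (P.red_eq_zero_iff (Or.inr h3.le)).2 (Or.inr h3)
  refine ⟨e1, e2, ?_⟩
  have h3 := T.eq12 P (by omega)
  by_contra hne
  have h4 := T.red P (by omega) (by omega)
  have h5 : P.red (E.rt 1) = P.red (E.rt 2) := by
    have hr1 : P.Reg (E.rt 1) := Or.inr (by omega)
    have hr2 : P.Reg (E.rt 2) := Or.inr (by omega)
    rw [← sub_eq_zero, ← P.red_sub hr1 hr2, P.red_eq_zero_iff (by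
      rw [sub_eq_add_neg]
      exact P.reg_add hr1 (P.reg_neg hr2))]
    have h6 : E.rt 1 - E.rt 2 = -(E.zi / (algebraMap κ K (E.C 1) * algebraMap κ K (E.C 2)) *
        (algebraMap κ K (E.C 1) - algebraMap κ K (E.C 2))) := by
      unfold rt
      field_simp
      ring
    have h7 : Ge P (E.lam P) (E.zi / (algebraMap κ K (E.C 1) * algebraMap κ K (E.C 2))) := by
      right
      rw [P.ord_div E.zi_ne (mul_ne_zero c1 c2), P.ord_mul c1 c2]
      unfold H at e1 e2
      omega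
    have h8 := (h7.mul h4).neg
    rw [← h6] at h8
    rcases h8 with h8 | h8
    · exact Or.inl h8
    · right
      omega
  rw [h5] at hind
  exact not_ind_self hind

end Exa

end Pool.Agent.Q73.LT
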